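import Pool.Agent.Q126.DL.Ext

/-! If an embedded sphere separates two closed curves, then the second one is null-homotopic in the
complement of the first one. -/

set_option autoImplicit false

namespace Pool.Agent.Q126.DL

open Set Metric Topology

/-- Let `S` be the image of an embedded two-sphere, `U` a component of its complement, and
`D : ℝ × ℝ → R3` a continuous map. Then there is a continuous map `D'` which agrees with `D` where
`D` is outside `U`, and which does not meet `U`. -/
theorem exists_push_off (φ : sphere (0 : R3) 1 → R3) (hφ : Continuous φ)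
    (hi : Function.Injective φ) (x : R3) (D : ℝ × ℝ → R3) (hD : Continuous D) :
    ∃ D' : ℝ × ℝ → R3, Continuous D' ∧
      (∀ p, D p ∉ connectedComponentIn (range φ)ᶜ x → D' p = D p) ∧
      ∀ p, D' p ∉ connectedComponentIn (range φ)ᶜ x := by
  classical
  set S := range φ with hS
  set U := connectedComponentIn Sᶜ x with hU
  have hSc : IsCompact S := isCompact_range hφ
  have hSo : IsOpen Sᶜ := hSc.isClosed.isOpen_compl
  have hUo : IsOpen U := hSo.connectedComponentIn
  have hUS : U ⊆ Sᶜ := connectedComponentIn_subset _ _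
  have hcl : IsClosed (U ∪ S) := by
    rw [← isOpen_compl_iff, isOpen_iff_mem_nhds]
    intro y hy
    have hyS : y ∈ Sᶜ := fun h => hy (Or.inr h)
    have hyU : y ∉ U := fun h => hy (Or.inl h)
    have h1 : connectedComponentIn Sᶜ y ∈ 𝓝 y :=
      connectedComponentIn_mem_nhds (hSo.mem_nhds hyS)
    filter_upwards [h1] with z hz
    rintro (h | h)
    · have e1 : connectedComponentIn Sᶜ y = connectedComponentIn Sᶜ z := connectedComponentIn_eq hz
      have e2 : U = connectedComponentIn Sᶜ z := connectedComponentIn_eq h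
      apply hyU
      rw [e2, ← e1]
      exact mem_connectedComponentIn hyS
    · exact (connectedComponentIn_subset _ _ hz) h
  -- the homeomorphism between the sphere and `S`
  have hemb : IsClosedEmbedding φ := hφ.isClosedEmbedding hi
  let e : sphere (0 : R3) 1 ≃ₜ S := hemb.isEmbedding.toHomeomorph
  have he : ∀ z, (e z : R3) = φ z := fun z => rfl
  let A : Set (ℝ × ℝ) := D ⁻¹' S
  have hA : IsClosed A := hSc.isClosed.preimage hD
  let f : C(A, R3) := ⟨fun p => (e.symm ⟨D p, p.2⟩ : R3), by
    apply continuous_subtype_val.comp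
    apply e.symm.continuous.comp
    exact (hD.comp continuous_subtype_val).subtype_mk _⟩
  have hf : ∀ p, ‖f p‖ = 1 := fun p => by
    have := (e.symm ⟨D p, p.2⟩).2
    rwa [mem_sphere_zero_iff_norm] at this
  obtain ⟨F, hF, hF1, hF2⟩ := exists_sphere_extension hA f hf
  let F' : ℝ × ℝ → sphere (0 : R3) 1 := fun p => ⟨F p, by rw [mem_sphere_zero_iff_norm]; exact hF1 p⟩
  have hF' : Continuous F' := hF.subtype_mk _
  have hFA : ∀ p, D p ∈ S → φ (F' p) = D p := by
    intro p hp
    have e1 : F' p = e.symm ⟨D p, hp⟩ := Subtype.ext (hF2 ⟨p, hp⟩)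
    rw [e1, ← he, Homeomorph.apply_symm_apply]
  let D' : ℝ × ℝ → R3 := fun p => if D p ∈ U then φ (F' p) else D p
  have h1 : ContinuousOn D' (D ⁻¹' (U ∪ S)) := by
    have : EqOn D' (fun p => φ (F' p)) (D ⁻¹' (U ∪ S)) := by
      intro p hp
      show (if D p ∈ U then φ (F' p) else D p) = φ (F' p)
      split_ifs with h
      · rfl
      · rcases hp with h' | h'
        · exact absurd h' h
        · exact (hFA p h').symm
    exact (hφ.comp hF').continuousOn.congr this
  have h2 : ContinuousOn D' (D ⁻¹' Uᶜ) := by
    have : EqOn D' D (D ⁻¹' Uᶜ) := fun p hp => if_neg hp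
    exact hD.continuousOn.congr this
  have h3 : Continuous D' := by
    rw [← continuousOn_univ]
    have : (univ : Set (ℝ × ℝ)) = D ⁻¹' (U ∪ S) ∪ D ⁻¹' Uᶜ := by
      rw [← preimage_union, eq_comm]
      apply preimage_eq_univ_iff.mpr
      intro y _
      by_cases h : y ∈ U
      · exact Or.inl (Or.inl h)
      · exact Or.inr h
    rw [this]
    exact h1.union_of_isClosed h2 (hcl.preimage hD) (hUo.isClosed_compl.preimage hD)
  refine ⟨D', h3, fun p hp => if_neg hp, fun p => ?_⟩
  show (if D p ∈ U then φ (F' p) else D p) ∉ U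
  split_ifs with h
  · exact fun h' => hUS h' ⟨_, rfl⟩
  · exact h

end Pool.Agent.Q126.DL
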