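import Pool.Agent.Q126.DL.Htp
import Pool.Agent.Q126.DL.Sep

/-! Homotopy invariance of the linking number; two linked curves are not separated by a sphere. -/

set_option autoImplicit false

namespace Pool.Agent.Q126.DL

open Pool.Agent.Helper683 Pool.Agent.Helper683.Lk Set Metric Topology Filter

theorem isLk_homotopy {x : Lk.R3} {γ : Path x x} (H : ℝ × ℝ → Lk.R3) (hH : Continuous H)
    (hcl : ∀ s, H (s, 0) = H (s, 1)) (hdj : ∀ u p, γ u ≠ H p)
    {y z : Lk.R3} (δ : Path y y) (hδ : ∀ t : unitInterval, δ t = H (0, t)) (δ' : Path z z)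
    (hδ' : ∀ t : unitInterval, δ' t = H (1, t)) {n : ℤ} (h : IsLinkingNumber γ δ n) :
    IsLinkingNumber γ δ' n := by
  classical
  let P : ∀ s : ℝ, Path (H (s, 0)) (H (s, 0)) := fun s =>
    { toFun := fun t => H (s, t)
      continuous_toFun := by fun_prop
      source' := by simp
      target' := by simp [hcl s] }
  have hP : ∀ s t, P s t = H (s, t) := fun _ _ => rfl
  have hPe : ∀ s (t : ℝ), (P s).extend t = H (s, (projIcc (0 : ℝ) 1 zero_le_one t : ℝ)) :=
    fun s t => rfl
  have hK : IsCompact (Icc (0 : ℝ) 1 ×ˢ Icc (0 : ℝ) 1) := isCompact_Icc.prod isCompact_Icc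
  -- the distance
  obtain ⟨ρ, hρ, hfar⟩ : ∃ ρ : ℝ, 0 < ρ ∧ ∀ u : unitInterval, ∀ p ∈ Icc (0 : ℝ) 1 ×ˢ Icc (0 : ℝ) 1,
      3 * ρ ≤ dist (γ u) (H p) := by
    have hc1 : IsCompact (range γ) := isCompact_range γ.continuous
    have hc2 : IsCompact (H '' (Icc (0 : ℝ) 1 ×ˢ Icc (0 : ℝ) 1)) := hK.image hH
    have hd : Disjoint (range γ) (H '' (Icc (0 : ℝ) 1 ×ˢ Icc (0 : ℝ) 1)) := by
      rw [Set.disjoint_left]
      rintro _ ⟨u, rfl⟩ ⟨p, _, hp⟩
      exact hdj u p hp.symm
    obtain ⟨r, hr, h1⟩ := exists_pos_forall_lt_edist hc1 hc2.isClosed hd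
    refine ⟨(r : ℝ) / 3, by positivity, ?_⟩
    intro u p hp
    have h2 := h1 (γ u) ⟨u, rfl⟩ (H p) ⟨p, hp, rfl⟩
    rw [edist_nndist, ENNReal.coe_lt_coe] at h2
    have h3 : (r : ℝ) < (nndist (γ u) (H p) : ℝ) := by exact_mod_cast h2
    rw [coe_nndist] at h3
    linarith
  -- uniform continuity
  obtain ⟨η, hη, hunif⟩ : ∃ η : ℝ, 0 < η ∧ ∀ s ∈ Icc (0 : ℝ) 1, ∀ s' ∈ Icc (0 : ℝ) 1,
      ∀ t ∈ Icc (0 : ℝ) 1, dist s s' < η → dist (H (s, t)) (H (s', t)) < ρ / 4 := by
    have := hK.uniformContinuousOn_of_continuous hH.continuousOn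
    rw [Metric.uniformContinuousOn_iff] at this
    obtain ⟨η, hη, h1⟩ := this (ρ / 4) (by positivity)
    refine ⟨η, hη, ?_⟩
    intro s hs s' hs' t ht hd
    apply h1 _ ⟨hs, ht⟩ _ ⟨hs', ht⟩
    rw [Prod.dist_eq, dist_self, max_eq_left dist_nonneg]
    exact hd
  obtain ⟨N, hN⟩ := exists_nat_gt (1 / η)
  have hN0 : 0 < N := by
    rcases Nat.eq_zero_or_pos N with h0 | h0
    · subst h0
      have : 0 < 1 / η := by positivity
      simp only [Nat.cast_zero] at hN
      linarith
    · exact h0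
  have hNR : (0 : ℝ) < N := by exact_mod_cast hN0
  have hstep : (1 : ℝ) / N < η := by
    rw [div_lt_iff₀ hNR]
    rw [div_lt_iff₀ hη] at hN
    linarith
  have key : ∀ k : ℕ, k ≤ N → IsLinkingNumber γ (P ((k : ℝ) / N)) n := by
    intro k
    induction k with
    | zero =>
      intro _
      have hy : y = H (0, 0) := by
        have := hδ 0
        rw [δ.source] at this
        simpa using this
      subst hy
      have e : δ = P 0 := Path.ext (funext fun t => hδ t)
      rw [e] at h
      have e0 : ((0 : ℕ) : ℝ) / N = 0 := by simp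
      rw [e0]
      exact h
    | succ k ih =>
      intro hk
      have ih' := ih (by omega)
      have m1 : ((k : ℝ) / N) ∈ Icc (0 : ℝ) 1 := by
        constructor
        · positivity
        · rw [div_le_one hNR]; exact_mod_cast (by omega : k ≤ N)
      have m2 : (((k + 1 : ℕ) : ℝ) / N) ∈ Icc (0 : ℝ) 1 := by
        constructor
        · positivity
        · rw [div_le_one hNR]; exact_mod_cast hk
      refine isLk_close hρ ?_ ?_ ih'
      · intro s t
        rw [hPe]
        exact hfar (projIcc (0 : ℝ) 1 zero_le_one s) _ ⟨m1, (projIcc (0 : ℝ) 1 zero_le_one t).2⟩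
      · intro t
        rw [hPe, hPe]
        apply hunif _ m1 _ m2 _ (projIcc (0 : ℝ) 1 zero_le_one t).2
        rw [Real.dist_eq, ← sub_div, Nat.cast_add, Nat.cast_one]
        rw [show ((k : ℝ) - (k + 1)) / N = -(1 / N) by ring, abs_neg, abs_of_pos (by positivity)]
        exact hstep
  have h1 := key N le_rfl
  rw [div_self hNR.ne'] at h1
  have hz : z = H (1, 0) := by
    have := hδ' 0
    rw [δ'.source] at this
    simpa using this
  subst hz
  have e : δ' = P 1 := Path.ext (funext fun t => hδ' t)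
  rw [e]
  exact h1

/-- Two curves with nonzero linking number lie in the same component of the complement of every
embedded two-sphere which is disjoint from both. -/
theorem same_component {x y : Lk.R3} {γ : Path x x} {δ : Path y y} {n : ℤ}
    (h : IsLinkingNumber γ δ n) (hn : n ≠ 0) (φ : sphere (0 : Lk.R3) 1 → Lk.R3) (hφ : Continuous φ)
    (hi : Function.Injective φ) (h1 : Disjoint (range γ) (range φ))
    (h2 : Disjoint (range δ) (range φ)) : y ∈ connectedComponentIn (range φ)ᶜ x := by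
  by_contra hy
  apply hn
  have hyS : y ∈ (range φ)ᶜ := fun hh => Set.disjoint_left.mp h2 ⟨0, δ.source⟩ hh
  have hγU : range γ ⊆ connectedComponentIn (range φ)ᶜ x := by
    apply IsPreconnected.subset_connectedComponentIn (isPreconnected_range γ.continuous)
      ⟨0, γ.source⟩
    exact Set.disjoint_left.mp h1
  have hδU : ∀ t, δ t ∉ connectedComponentIn (range φ)ᶜ x := by
    intro t ht
    apply hy
    have h3 : range δ ⊆ connectedComponentIn (range φ)ᶜ (δ t) :=
      IsPreconnected.subset_connectedComponentIn (isPreconnected_range δ.continuous) ⟨t, rfl⟩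
        (Set.disjoint_left.mp h2)
    rw [connectedComponentIn_eq ht]
    exact h3 ⟨0, δ.source⟩
  obtain ⟨D', hD', hD1, hD2⟩ := exists_push_off φ hφ hi x
    (fun p => (1 - p.1) • δ.extend p.2 + p.1 • y)
    (by
      have := δ.continuous_extend
      fun_prop)
  apply isLk_refl (y := y) (γ := γ)
  refine isLk_homotopy D' hD' ?_ ?_ δ ?_ (Path.refl y) ?_ h
  · intro s
    rw [hD1 (s, 0), hD1 (s, 1)]
    · simp
    · simp only [Path.extend_one]
      rwa [← add_smul, sub_add_cancel, one_smul]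
    · simp only [Path.extend_zero]
      rwa [← add_smul, sub_add_cancel, one_smul]
  · intro u p hp
    exact hD2 p (hp ▸ hγU ⟨u, rfl⟩)
  · intro t
    have e1 : δ.extend (t : ℝ) = δ t := Path.extend_apply δ t.2
    rw [hD1 (0, t)]
    · simp [e1]
    · simp [e1, hδU t]
  · intro t
    rw [hD1 (1, t)]
    · simp
    · simp [hy]

end Pool.Agent.Q126.DL
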