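import Pool.Agent.Q126.DL.Comb2
import Pool.Agent.Q126.DL.Htp2

/-! Assembly: linked cycles are not separated by spheres. -/

set_option autoImplicit false
set_option maxHeartbeats 4000000

namespace Pool.Agent.Q126.DL

open Pool.Agent.Helper683 Pool.Agent.Helper683.Lk Set Metric Topology

variable {V : Type}

theorem mem_dts_fst (z : V) : ∀ (l : List V) (d : V × V), d ∈ dts z l → d.1 ∈ l
  | [], d, h => by simp [dts] at h
  | x :: l, d, h => by
    rw [dts, List.mem_cons] at h
    rcases h with rfl | h
    · simp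
    · exact List.mem_cons_of_mem _ (mem_dts_fst z l d h)

theorem mem_dts_snd (z : V) : ∀ (l : List V) (d : V × V), d ∈ dts z l → d.2 ∈ l ∨ d.2 = z
  | [], d, h => by simp [dts] at h
  | x :: l, d, h => by
    rw [dts, List.mem_cons] at h
    rcases h with rfl | h
    · cases l with
      | nil => right; rfl
      | cons y l => left; simp [hd]
    · rcases mem_dts_snd z l d h with h | h
      · exact Or.inl (List.mem_cons_of_mem _ h)
      · exact Or.inr h

theorem dts_ne (z : V) : ∀ (l : List V), (l ++ [z]).Nodup → ∀ d ∈ dts z l, d.1 ≠ d.2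
  | [], _, d, h => by simp [dts] at h
  | x :: l, hn, d, h => by
    rw [List.cons_append, List.nodup_cons] at hn
    rw [dts, List.mem_cons] at h
    rcases h with rfl | h
    · intro e
      dsimp only at e
      apply hn.1
      rw [e]
      cases l with
      | nil => simp [hd]
      | cons y l => simp [hd]
    · exact dts_ne z l hn.2 d h

theorem cdts_mem {l : List V} {d : V × V} (h : d ∈ cdts l) : d.1 ∈ l ∧ d.2 ∈ l := by
  cases l with
  | nil => simp [cdts] at h
  | cons x l =>
    refine ⟨mem_dts_fst x _ d h, ?_⟩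
    rcases mem_dts_snd x _ d h with h | h
    · exact h
    · rw [h]; simp

theorem cdts_ne {l : List V} (hl : Ok l) {d : V × V} (h : d ∈ cdts l) : d.1 ≠ d.2 := by
  obtain ⟨hn, h2⟩ := hl
  match l, hn, h2, h with
  | x :: y :: l, hn, _, h =>
    change d ∈ (x, y) :: dts x (y :: l) at h
    rcases List.mem_cons.mp h with rfl | h
    · intro e
      simp only at e
      rw [List.nodup_cons] at hn
      exact hn.1 (by rw [e]; simp)
    · apply dts_ne x (y :: l) _ d h
      exact (List.perm_append_singleton x (y :: l)).nodup_iff.mpr hn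

theorem dd_of {c l : List V} (hc : Ok c) (hl : Ok l) (hd : List.Disjoint c l) :
    DD (cdts c) (cdts l) := by
  intro e he f hf
  obtain ⟨e1, e2⟩ := cdts_mem he
  obtain ⟨f1, f2⟩ := cdts_mem hf
  exact ⟨cdts_ne hc he, cdts_ne hl hf, fun h => hd e1 (h ▸ f1), fun h => hd e1 (h ▸ f2),
    fun h => hd e2 (h ▸ f1), fun h => hd e2 (h ▸ f2)⟩

variable {E : Dat V} (S : Scale E)

theorem list_swap {α β : Type} (A : List α) (B : List β) (f : α → β → ZMod 2) :
    (B.map fun b => (A.map fun a => f a b).sum).sum = (A.map fun a => (B.map fun b => f a b).sum).sum := by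
  induction A with
  | nil => simp
  | cons a A ih =>
    simp only [List.map_cons, List.sum_cons]
    rw [← ih, List.sum_map_add]

theorem cast_sum {α : Type} (A : List α) (f : α → ℤ) :
    (((A.map f).sum : ℤ) : ZMod 2) = (A.map fun a => (f a : ZMod 2)).sum := by
  induction A with
  | nil => simp
  | cons a A ih => simp only [List.map_cons, List.sum_cons]; rw [Int.cast_add, ih]

theorem lk_cast (c l : List V) :
    ((((cdts l).map fun f => ((cdts c).map fun e => T S e.1 e.2 f.1 f.2).sum).sum : ℤ) : ZMod 2) =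
      lk (L2 S) c l := by
  unfold lk cs L2
  rw [← list_swap, cast_sum]
  congr 1
  apply List.map_congr_left
  intro f _
  rw [cast_sum]

/-- closed lists with odd pairing have curves with nonzero linking number -/
theorem lk_odd {x y : V} {l l' : List V} (h1 : Ok (x :: l)) (h2 : Ok (y :: l'))
    (hd : List.Disjoint (x :: l) (y :: l')) (h : lk (L2 S) (x :: l) (y :: l') = 1) :
    ∃ n : ℤ, n ≠ 0 ∧ IsLinkingNumber (ccurve E x l) (ccurve E y l') n := by
  refine ⟨_, ?_, isLk S (dd_of h1 h2 hd)⟩
  intro h0
  have h3 := sp_T S x y (x :: l) (y :: l')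
  rw [h0] at h3
  have h4 := lk_cast S (x :: l) (y :: l')
  rw [h] at h4
  have h5 : (((cdts (y :: l')).map fun f => ((cdts (x :: l)).map fun e =>
      T S e.1 e.2 f.1 f.2).sum).sum : ℤ) = 0 := h3.symm
  rw [h5] at h4
  exact absurd h4 (by decide)

/-- the image of a closed list -/
def img (E : Dat V) (l : List V) : Set Lk.R3 := ⋃ d ∈ cdts l, range (E.arc d.1 d.2)

theorem img_eq (x : V) (l : List V) : img E (x :: l) = range (ccurve E x l) :=
  (range_curve E x (x :: l) (by simp)).symm

/-- all points of a closed curve are in the same component -/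
theorem comp_eq {x : Lk.R3} (γ : Path x x) {K : Set Lk.R3} (h : Disjoint (range γ) K) {p : Lk.R3}
    (hp : p ∈ range γ) : connectedComponentIn Kᶜ p = connectedComponentIn Kᶜ x := by
  have h1 : range γ ⊆ connectedComponentIn Kᶜ p :=
    IsPreconnected.subset_connectedComponentIn (isPreconnected_range γ.continuous) hp
      (Set.disjoint_left.mp h)
  exact connectedComponentIn_eq (h1 ⟨0, γ.source⟩)

theorem pair_nonsplit' {x y : V} {l l' : List V} (h1 : Ok (x :: l)) (h2 : Ok (y :: l'))
    (hd : List.Disjoint (x :: l) (y :: l')) (h : lk (L2 S) (x :: l) (y :: l') = 1)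
    (φ : sphere (0 : Lk.R3) 1 → Lk.R3) (hφ : Continuous φ) (hi : Function.Injective φ)
    (g1 : Disjoint (img E (x :: l)) (range φ)) (g2 : Disjoint (img E (y :: l')) (range φ))
    {p q : Lk.R3} (hp : p ∈ img E (x :: l)) (hq : q ∈ img E (y :: l')) :
    connectedComponentIn (range φ)ᶜ p = connectedComponentIn (range φ)ᶜ q := by
  rw [img_eq] at g1 g2 hp hq
  obtain ⟨n, hn, hlk⟩ := lk_odd S h1 h2 hd h
  rw [comp_eq _ g1 hp, comp_eq _ g2 hq]
  exact connectedComponentIn_eq (same_component hlk hn φ hφ hi g1 g2)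

theorem pair_nonsplit {c l : List V} (h1 : Ok c) (h2 : Ok l)
    (hd : List.Disjoint c l) (h : lk (L2 S) c l = 1 ∨ lk (L2 S) l c = 1)
    (φ : sphere (0 : Lk.R3) 1 → Lk.R3) (hφ : Continuous φ) (hi : Function.Injective φ)
    (g1 : Disjoint (img E c) (range φ)) (g2 : Disjoint (img E l) (range φ))
    {p q : Lk.R3} (hp : p ∈ img E c) (hq : q ∈ img E l) :
    connectedComponentIn (range φ)ᶜ p = connectedComponentIn (range φ)ᶜ q := by
  cases c with
  | nil => have := h1.2; simp at this
  | cons x c =>
    cases l with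
    | nil => have := h2.2; simp at this
    | cons y l =>
      rcases h with h | h
      · exact pair_nonsplit' S h1 h2 hd h φ hφ hi g1 g2 hp hq
      · exact (pair_nonsplit' S h2 h1 hd.symm h φ hφ hi g2 g1 hq hp).symm

theorem self_nonsplit {c : List V} (h1 : Ok c)
    (φ : sphere (0 : Lk.R3) 1 → Lk.R3)
    (g1 : Disjoint (img E c) (range φ)) {p q : Lk.R3} (hp : p ∈ img E c) (hq : q ∈ img E c) :
    connectedComponentIn (range φ)ᶜ p = connectedComponentIn (range φ)ᶜ q := by
  cases c with
  | nil => have := h1.2; simp at this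
  | cons x c =>
    rw [img_eq] at g1 hp hq
    rw [comp_eq _ g1 hp, comp_eq _ g1 hq]

theorem img_nonempty {c : List V} (h1 : Ok c) : (img E c).Nonempty := by
  cases c with
  | nil => have := h1.2; simp at this
  | cons x c =>
    rw [img_eq]
    exact range_nonempty _

/-- the components of a star are in one component of the complement of each embedded sphere -/
theorem star_nonsplit {c : List V} {F : List (List V)} (hdis : (c :: F).Pairwise List.Disjoint)
    (hok : ∀ l ∈ c :: F, Ok l) (hlk : ∀ l ∈ F, lk (L2 S) c l = 1 ∨ lk (L2 S) l c = 1)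
    (φ : sphere (0 : Lk.R3) 1 → Lk.R3) (hφ : Continuous φ) (hi : Function.Injective φ)
    (g : ∀ l ∈ c :: F, Disjoint (img E l) (range φ)) {l l' : List V} (hl : l ∈ c :: F)
    (hl' : l' ∈ c :: F) {p q : Lk.R3} (hp : p ∈ img E l) (hq : q ∈ img E l') :
    q ∈ connectedComponentIn (range φ)ᶜ p := by
  have hc : c ∈ c :: F := by simp
  obtain ⟨o, ho⟩ := img_nonempty (E := E) (hok c hc)
  have key : ∀ l ∈ c :: F, ∀ p ∈ img E l,
      connectedComponentIn (range φ)ᶜ p = connectedComponentIn (range φ)ᶜ o := by
    intro l hl p hp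
    rcases List.mem_cons.mp hl with rfl | hl'
    · exact self_nonsplit (hok _ hl) φ (g _ hl) hp ho
    · rw [List.pairwise_cons] at hdis
      exact (pair_nonsplit S (hok c hc) (hok l hl) (hdis.1 l hl') (hlk l hl') φ hφ hi (g c hc)
        (g l hl) ho hp).symm
  rw [key l hl p hp, ← key l' hl' q hq]
  exact mem_connectedComponentIn (Set.disjoint_left.mp (g l' hl') hq)

end Pool.Agent.Q126.DL
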