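import Pool.Agent.Q126.DL.Cyc

/-! The combinatorial part: a cycle linked with many disjoint cycles in a large complete symmetric
directed graph. -/

set_option autoImplicit false
set_option maxHeartbeats 4000000

namespace Pool.Agent.Q126.DL

open Pool.Agent.Helper683 Pool.Agent.Helper683.Lk

theorem z2_cases (x : ZMod 2) : x = 0 ∨ x = 1 := by revert x; decide

/-! ### matchings -/

theorem matching {V : Type} [DecidableEq V] (R : V → V → Prop) (P : V → Prop) (k : ℕ) :
    (∃ T : Finset V, T.card ≤ 2 * k ∧ ∀ a b, a ≠ b → P a → P b → a ∉ T → b ∉ T → ¬ R a b) ∨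
    (∃ F : List (List V), F.length = k ∧ F.Pairwise List.Disjoint ∧
      ∀ l ∈ F, ∃ a b, l = [a, b] ∧ a ≠ b ∧ P a ∧ P b ∧ R a b) := by
  induction k with
  | zero => right; exact ⟨[], rfl, List.Pairwise.nil, by simp⟩
  | succ k ih =>
    rcases ih with ⟨T, hT, h⟩ | ⟨F, h1, h2, h3⟩
    · left; exact ⟨T, by omega, h⟩
    · by_cases hT : ∀ a b, a ≠ b → P a → P b → a ∉ F.flatten.toFinset → b ∉ F.flatten.toFinset →
          ¬ R a b
      · left
        refine ⟨F.flatten.toFinset, ?_, hT⟩
        refine (List.toFinset_card_le _).trans ?_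
        rw [List.length_flatten]
        have : F.map List.length = List.replicate k 2 := by
          rw [List.eq_replicate_iff]
          refine ⟨by simpa using h1, ?_⟩
          intro n hn
          obtain ⟨l, hl, rfl⟩ := List.mem_map.mp hn
          obtain ⟨a, b, rfl, _⟩ := h3 l hl
          rfl
        rw [this, List.sum_replicate, smul_eq_mul]
        omega
      · right
        push Not at hT
        obtain ⟨a, b, hab, ha, hb, ha', hb', hR⟩ := hT
        refine ⟨[a, b] :: F, by simp [h1], ?_, ?_⟩
        · rw [List.pairwise_cons]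
          refine ⟨?_, h2⟩
          intro l hl x hx hx'
          have hm : x ∈ F.flatten.toFinset := by
            rw [List.mem_toFinset, List.mem_flatten]; exact ⟨l, hl, hx'⟩
          simp only [List.mem_cons, List.not_mem_nil, or_false] at hx
          rcases hx with rfl | rfl
          · exact ha' hm
          · exact hb' hm
        · intro l hl
          rcases List.mem_cons.mp hl with rfl | hl
          · exact ⟨a, b, rfl, hab, ha, hb, hR⟩
          · exact h3 l hl

/-! ### free sets -/

theorem free_set (B s : ℕ) (hB : 6 * s < B) (f : (Fin 5 → Fin B) → Finset (Fin B))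
    (hf : ∀ w, (f w).card ≤ s) :
    ∃ v : Fin 6 → Fin B, ∀ i : Fin 6, v i ∉ f (fun j => v (i.succAbove j)) := by
  classical
  by_contra hcon
  push Not at hcon
  have h1 : (Finset.univ : Finset (Fin 6 → Fin B)) ⊆ Finset.univ.biUnion fun i : Fin 6 =>
      Finset.univ.filter fun v : Fin 6 → Fin B => v i ∈ f (fun j => v (i.succAbove j)) := by
    intro v _
    obtain ⟨i, hi⟩ := hcon v
    exact Finset.mem_biUnion.mpr ⟨i, Finset.mem_univ _, Finset.mem_filter.mpr ⟨Finset.mem_univ _, hi⟩⟩
  have h2 := (Finset.card_le_card h1).trans Finset.card_biUnion_le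
  rw [Finset.card_univ, Fintype.card_fun, Fintype.card_fin, Fintype.card_fin] at h2
  have h3 : ∀ i : Fin 6, (Finset.univ.filter fun v : Fin 6 → Fin B =>
      v i ∈ f (fun j => v (i.succAbove j))).card ≤ B ^ 5 * s := by
    intro i
    have e1 : (Finset.univ.filter fun v : Fin 6 → Fin B =>
        v i ∈ f (fun j => v (i.succAbove j))).card ≤
        ((Finset.univ : Finset (Fin 5 → Fin B)).sigma f).card := by
      apply Finset.card_le_card_of_injOn (fun v => ⟨fun j => v (i.succAbove j), v i⟩)
      · intro v hv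
        rw [Finset.mem_coe, Finset.mem_filter] at hv
        exact Finset.mem_coe.mpr (Finset.mem_sigma.mpr ⟨Finset.mem_univ _, hv.2⟩)
      · intro v _ w _ h
        simp only [Sigma.mk.injEq, heq_eq_eq] at h
        funext j
        rcases Fin.eq_self_or_eq_succAbove i j with rfl | ⟨j', rfl⟩
        · exact h.2
        · exact congrFun h.1 j'
    refine e1.trans ?_
    rw [Finset.card_sigma]
    refine (Finset.sum_le_card_nsmul _ _ s fun w _ => hf w).trans ?_
    rw [Finset.card_univ, Fintype.card_fun, Fintype.card_fin, Fintype.card_fin, smul_eq_mul]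
  have h4 := h2.trans (Finset.sum_le_card_nsmul _ _ (B ^ 5 * s) fun i _ => h3 i)
  rw [Finset.card_univ, Fintype.card_fin, smul_eq_mul] at h4
  have hB0 : 0 < B := by omega
  have h5 : B ^ 5 * B ≤ B ^ 5 * (6 * s) := by
    calc B ^ 5 * B = B ^ 6 := by ring
      _ ≤ 6 * (B ^ 5 * s) := h4
      _ = B ^ 5 * (6 * s) := by ring
  have h6 := Nat.le_of_mul_le_mul_left h5 (by positivity)
  omega

/-! ### averaging -/

theorem avg (k : ℕ) (b : Fin (2 * k) → ZMod 2) (d : Fin (2 * k) → Fin (2 * k) → ZMod 2)
    (hd : ∀ i, d i i = 1) :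
    ∃ ε : Fin (2 * k) → Bool,
      k ≤ (Finset.univ.filter fun i => b i + ∑ j, (if ε j then d j i else 0) = 1).card := by
  classical
  let x : (Fin (2 * k) → Bool) → Fin (2 * k) → ZMod 2 := fun ε i =>
    b i + ∑ j, (if ε j then d j i else 0)
  let g : (Fin (2 * k) → Bool) → Fin (2 * k) → ℕ := fun ε i => if x ε i = 1 then 1 else 0
  let fl : Fin (2 * k) → (Fin (2 * k) → Bool) → (Fin (2 * k) → Bool) := fun i ε =>
    Function.update ε i (!ε i)
  have hfl : ∀ i, Function.Involutive (fl i) := by
    intro i ε
    funext j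
    by_cases h : j = i
    · subst h; simp [fl]
    · simp [fl, h]
  have hx : ∀ ε i, x (fl i ε) i = x ε i + 1 := by
    intro ε i
    have e1 : ∑ j, (if fl i ε j then d j i else 0) = (∑ j, (if ε j then d j i else 0)) + 1 := by
      rw [← Finset.add_sum_erase _ _ (Finset.mem_univ i), ← Finset.add_sum_erase _ _ (Finset.mem_univ i)]
      have e2 : ∀ j ∈ Finset.univ.erase i, (if fl i ε j then d j i else 0) =
          (if ε j then d j i else 0) := by
        intro j hj
        have : j ≠ i := (Finset.mem_erase.mp hj).1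
        simp [fl, this]
      rw [Finset.sum_congr rfl e2]
      have e3 : (if fl i ε i then d i i else 0) = (if ε i then d i i else 0) + 1 := by
        rw [hd]
        simp only [fl, Function.update_self]
        cases ε i
        · simp
        · simp; rfl
      rw [e3]; ring
    simp only [x]
    rw [e1]; ring
  have hg : ∀ ε i, g ε i + g (fl i ε) i = 1 := by
    intro ε i
    simp only [g, hx]
    rcases z2_cases (x ε i) with h | h <;> rw [h] <;> decide
  have hsum : ∀ i, 2 * ∑ ε, g ε i = 2 ^ (2 * k) := by
    intro i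
    have e1 : ∑ ε, g (fl i ε) i = ∑ ε, g ε i :=
      Equiv.sum_comp (hfl i).toPerm (fun ε => g ε i)
    have e2 : ∑ ε, (g ε i + g (fl i ε) i) = ∑ ε : Fin (2 * k) → Bool, 1 :=
      Finset.sum_congr rfl fun ε _ => hg ε i
    rw [Finset.sum_add_distrib, e1] at e2
    simp only [Finset.sum_const, Finset.card_univ, Fintype.card_fun, Fintype.card_bool,
      Fintype.card_fin, smul_eq_mul, mul_one] at e2
    omega
  have htot : ∑ ε : Fin (2 * k) → Bool, k ≤ ∑ ε, ∑ i, g ε i := by
    rw [Finset.sum_comm]
    have e1 : 2 * ∑ i, ∑ ε, g ε i = 2 * k * 2 ^ (2 * k) := by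
      rw [Finset.mul_sum, Finset.sum_congr rfl fun i _ => hsum i]
      simp
    rw [Finset.sum_const, Finset.card_univ, Fintype.card_fun, Fintype.card_bool,
      Fintype.card_fin, smul_eq_mul]
    nlinarith
  obtain ⟨ε, _, hε⟩ := Finset.exists_le_of_sum_le (Finset.univ_nonempty) htot
  refine ⟨ε, ?_⟩
  rw [Finset.card_filter]
  exact hε

end Pool.Agent.Q126.DL
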