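import Pool.Agent.Q126.DL.Comb

/-! The combinatorial part: a cycle linked with many disjoint cycles in a large complete symmetric
directed graph. -/

set_option autoImplicit false
set_option maxHeartbeats 4000000

namespace Pool.Agent.Q126.DL

open Pool.Agent.Helper683 Pool.Agent.Helper683.Lk

section
variable {V : Type}

/-- the arcs of the closed walk through a list of vertices -/
def cdts : List V → List (V × V)
  | [] => []
  | x :: l => dts x (x :: l)

/-- cyclic sum -/
def cs (ψ : V → V → ZMod 2) (l : List V) : ZMod 2 := ((cdts l).map fun e => ψ e.1 e.2).sum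

/-- path sum -/
def ps (ψ : V → V → ZMod 2) (z : V) (l : List V) : ZMod 2 := ((dts z l).map fun e => ψ e.1 e.2).sum

/-- the parity of the linking number -/
def lk (L : V → V → V → V → ZMod 2) (C X : List V) : ZMod 2 :=
  cs (fun a b => cs (fun x y => L a b x y) X) C

/-- lists of vertices which are cycles -/
def Ok (l : List V) : Prop := l.Nodup ∧ 2 ≤ l.length

/-- a cycle which has odd linking number with each of `k` further cycles -/
def Star (L : V → V → V → V → ZMod 2) (k : ℕ) : Prop :=
  ∃ (c : List V) (F : List (List V)), F.length = k ∧ (c :: F).Pairwise List.Disjoint ∧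
    (∀ l ∈ c :: F, Ok l) ∧ ∀ l ∈ F, lk L c l = 1 ∨ lk L l c = 1

theorem cs2 (ψ : V → V → ZMod 2) (a b : V) : cs ψ [a, b] = ψ a b + ψ b a := by
  simp [cs, cdts, dts, hd]
theorem cs3 (ψ : V → V → ZMod 2) (a b c : V) : cs ψ [a, b, c] = ψ a b + ψ b c + ψ c a := by
  simp [cs, cdts, dts, hd]; ring

/-- the pairing of the two transitive triangles -/
def RR (L : V → V → V → V → ZMod 2) (a b c x y z : V) : ZMod 2 :=
  L a b x y + L a b y z + L a b x z + L b c x y + L b c y z + L b c x z + L a c x y + L a c y z +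
    L a c x z

theorem ten_exists (L : V → V → V → V → ZMod 2) (v : Fin 6 → V)
    (h : ten (fun a b x y => L (v a) (v b) (v x) (v y)) = 1) :
    ∃ a b c x y z : Fin 6, [a, b, c, x, y, z].Nodup ∧
      RR L (v a) (v b) (v c) (v x) (v y) (v z) = 1 := by
  by_contra hcon
  push Not at hcon
  have H : ∀ a b c x y z : Fin 6, [a, b, c, x, y, z].Nodup →
      RR L (v a) (v b) (v c) (v x) (v y) (v z) = 0 := fun a b c x y z hn =>
    (z2_cases _).resolve_right (hcon a b c x y z hn)
  have h0 : ten (fun a b x y => L (v a) (v b) (v x) (v y)) = 0 := by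
    have t0 := H 0 1 2 3 4 5 (by decide)
    have t1 := H 0 1 3 2 4 5 (by decide)
    have t2 := H 0 1 4 2 3 5 (by decide)
    have t3 := H 0 1 5 2 3 4 (by decide)
    have t4 := H 0 2 3 1 4 5 (by decide)
    have t5 := H 0 2 4 1 3 5 (by decide)
    have t6 := H 0 2 5 1 3 4 (by decide)
    have t7 := H 0 3 4 1 2 5 (by decide)
    have t8 := H 0 3 5 1 2 4 (by decide)
    have t9 := H 0 4 5 1 2 3 (by decide)
    unfold RR at t0 t1 t2 t3 t4 t5 t6 t7 t8 t9
    unfold ten
    linear_combination t0 + t1 + t2 + t3 + t4 + t5 + t6 + t7 + t8 + t9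
  rw [h0] at h
  exact absurd h (by decide)

theorem good_pair (L : V → V → V → V → ZMod 2) (a b c x y z : V)
    (h : RR L a b c x y z = 1) (h1 : lk L [a, c] [x, y, z] = 0) (h2 : lk L [a, c] [x, z] = 0) :
    lk L [a, b, c] [x, y, z] = 1 ∨ lk L [a, b, c] [x, z] = 1 := by
  by_contra hcon
  push Not at hcon
  have g1 := (z2_cases (lk L [a, b, c] [x, y, z])).resolve_right hcon.1
  have g2 := (z2_cases (lk L [a, b, c] [x, z])).resolve_right hcon.2
  have h0 : RR L a b c x y z = 0 := by
    unfold lk at g1 g2 h1 h2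
    simp only [cs2, cs3] at g1 g2 h1 h2
    unfold RR
    linear_combination g1 + g2 + h1 + h2 - (L c a x y + L c a y z + L c a x z + L a b z x +
      L b c z x + L a c z x + 2 * L c a z x) * two0
  rw [h0] at h
  exact absurd h (by decide)

end

/-! ### the good pairs in one block -/

theorem block {m B k : ℕ} (hB : 6 * (300 * k + 5) < B)
    (L : (Fin m × Fin B) → (Fin m × Fin B) → (Fin m × Fin B) → (Fin m × Fin B) → ZMod 2)
    (hL : ∀ v : Fin 6 → Fin m × Fin B, Function.Injective v →
      ten (fun a b x y => L (v a) (v b) (v x) (v y)) = 1)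
    (T : List (Fin m × Fin B) → Finset (Fin m × Fin B)) (hT : ∀ X, (T X).card ≤ 2 * k)
    (hT2 : ∀ X, Ok X → ∀ a b, a ≠ b → a ∉ X → b ∉ X → a ∉ T X → b ∉ T X → lk L [a, b] X = 0)
    (j : Fin m) :
    ∃ (a b c : Fin m × Fin B) (X : List (Fin m × Fin B)), [a, b, c].Nodup ∧ Ok X ∧
      (∀ x ∈ [a, b, c], x.1 = j ∧ x ∉ X) ∧ (∀ x ∈ X, x.1 = j) ∧ lk L [a, b, c] X = 1 ∧
      lk L [a, c] X = 0 := by
  classical
  let f : (Fin 5 → Fin B) → Finset (Fin B) := fun w =>
    (Finset.univ.biUnion fun t : Fin 5 × Fin 5 × Fin 5 =>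
      (Finset.univ.filter fun x : Fin B => (j, x) ∈ T [(j, w t.1), (j, w t.2.1), (j, w t.2.2)])) ∪
    (Finset.univ.biUnion fun t : Fin 5 × Fin 5 =>
      (Finset.univ.filter fun x : Fin B => (j, x) ∈ T [(j, w t.1), (j, w t.2)])) ∪
    Finset.univ.image w
  have hcard : ∀ X, (Finset.univ.filter fun x : Fin B => (j, x) ∈ T X).card ≤ 2 * k := by
    intro X
    refine le_trans ?_ (hT X)
    apply Finset.card_le_card_of_injOn (fun x => (j, x))
    · intro x hx
      exact (Finset.mem_filter.mp (Finset.mem_coe.mp hx)).2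
    · intro x _ y _ h
      exact (Prod.mk.inj h).2
  have hf : ∀ w, (f w).card ≤ 300 * k + 5 := by
    intro w
    refine (Finset.card_union_le _ _).trans ?_
    have e1 : (Finset.univ.image w).card ≤ 5 := by
      refine Finset.card_image_le.trans ?_
      rw [Finset.card_univ, Fintype.card_fin]
    have e2 : (Finset.univ.biUnion fun t : Fin 5 × Fin 5 × Fin 5 =>
      (Finset.univ.filter fun x : Fin B => (j, x) ∈ T [(j, w t.1), (j, w t.2.1), (j, w t.2.2)])).card
        ≤ 125 * (2 * k) := by
      refine (Finset.card_biUnion_le_card_mul _ _ _ fun t _ => hcard _).trans ?_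
      rw [Finset.card_univ]
      simp
    have e3 : (Finset.univ.biUnion fun t : Fin 5 × Fin 5 =>
      (Finset.univ.filter fun x : Fin B => (j, x) ∈ T [(j, w t.1), (j, w t.2)])).card
        ≤ 25 * (2 * k) := by
      refine (Finset.card_biUnion_le_card_mul _ _ _ fun t _ => hcard _).trans ?_
      rw [Finset.card_univ]
      simp
    have e4 := Finset.card_union_le (Finset.univ.biUnion fun t : Fin 5 × Fin 5 × Fin 5 =>
      (Finset.univ.filter fun x : Fin B => (j, x) ∈ T [(j, w t.1), (j, w t.2.1), (j, w t.2.2)]))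
      (Finset.univ.biUnion fun t : Fin 5 × Fin 5 =>
      (Finset.univ.filter fun x : Fin B => (j, x) ∈ T [(j, w t.1), (j, w t.2)]))
    omega
  have f3 : ∀ (w : Fin 5 → Fin B) (x : Fin B) (p q r : Fin 5),
      (j, x) ∈ T [(j, w p), (j, w q), (j, w r)] → x ∈ f w := by
    intro w x p q r h
    simp only [f, Finset.mem_union, Finset.mem_biUnion, Finset.mem_univ, true_and,
      Finset.mem_filter, Finset.mem_image]
    exact Or.inl (Or.inl ⟨(p, q, r), h⟩)
  have f2 : ∀ (w : Fin 5 → Fin B) (x : Fin B) (p q : Fin 5),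
      (j, x) ∈ T [(j, w p), (j, w q)] → x ∈ f w := by
    intro w x p q h
    simp only [f, Finset.mem_union, Finset.mem_biUnion, Finset.mem_univ, true_and,
      Finset.mem_filter, Finset.mem_image]
    exact Or.inl (Or.inr ⟨(p, q), h⟩)
  have f1 : ∀ (w : Fin 5 → Fin B) (p : Fin 5), w p ∈ f w := by
    intro w p
    simp only [f, Finset.mem_union, Finset.mem_biUnion, Finset.mem_univ, true_and,
      Finset.mem_filter, Finset.mem_image]
    exact Or.inr ⟨p, rfl⟩
  clear_value f
  obtain ⟨v, hv⟩ := free_set B (300 * k + 5) hB f hf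
  have v3 : ∀ i p q r : Fin 6, p ≠ i → q ≠ i → r ≠ i →
      (j, v i) ∉ T [(j, v p), (j, v q), (j, v r)] := by
    intro i p q r hp hq hr hh
    obtain ⟨p', rfl⟩ := Fin.exists_succAbove_eq hp
    obtain ⟨q', rfl⟩ := Fin.exists_succAbove_eq hq
    obtain ⟨r', rfl⟩ := Fin.exists_succAbove_eq hr
    exact hv i (f3 (fun j => v (i.succAbove j)) (v i) p' q' r' hh)
  have v2 : ∀ i p q : Fin 6, p ≠ i → q ≠ i → (j, v i) ∉ T [(j, v p), (j, v q)] := by
    intro i p q hp hq hh
    obtain ⟨p', rfl⟩ := Fin.exists_succAbove_eq hp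
    obtain ⟨q', rfl⟩ := Fin.exists_succAbove_eq hq
    exact hv i (f2 (fun j => v (i.succAbove j)) (v i) p' q' hh)
  have v1 : ∀ i p : Fin 6, p ≠ i → v p ≠ v i := by
    intro i p hp hh
    obtain ⟨p', rfl⟩ := Fin.exists_succAbove_eq hp
    have := f1 (fun j => v (i.succAbove j)) p'
    rw [hh] at this
    exact hv i this
  let u : Fin 6 → Fin m × Fin B := fun i => (j, v i)
  have hu : ∀ i p : Fin 6, i ≠ p → u i ≠ u p := fun i p h h' => v1 p i h (Prod.mk.inj h').2
  have hui : Function.Injective u := fun i p h => by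
    by_contra hne
    exact hu i p hne h
  obtain ⟨a, b, c, x, y, z, hnd, hR⟩ := ten_exists L u (hL u hui)
  simp only [List.nodup_cons, List.mem_cons, List.not_mem_nil, or_false, not_or, not_false_eq_true,
    List.nodup_nil, and_true] at hnd
  obtain ⟨⟨ab, ac, ax, ay, az⟩, ⟨bc, bx, by', bz⟩, ⟨cx, cy, cz⟩, ⟨xy, xz⟩, yz⟩ := hnd
  have okX3 : Ok [u x, u y, u z] := ⟨by simp [hu _ _ xy, hu _ _ xz, hu _ _ yz], by simp⟩
  have okX2 : Ok [u x, u z] := ⟨by simp [hu _ _ xz], by simp⟩
  have h1 : lk L [u a, u c] [u x, u y, u z] = 0 := by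
    apply hT2 _ okX3 _ _ (hu _ _ ac)
    · simp [hu _ _ ax, hu _ _ ay, hu _ _ az]
    · simp [hu _ _ cx, hu _ _ cy, hu _ _ cz]
    · exact v3 a x y z (Ne.symm ax) (Ne.symm ay) (Ne.symm az)
    · exact v3 c x y z (Ne.symm cx) (Ne.symm cy) (Ne.symm cz)
  have h2 : lk L [u a, u c] [u x, u z] = 0 := by
    apply hT2 _ okX2 _ _ (hu _ _ ac)
    · simp [hu _ _ ax, hu _ _ az]
    · simp [hu _ _ cx, hu _ _ cz]
    · exact v2 a x z (Ne.symm ax) (Ne.symm az)
    · exact v2 c x z (Ne.symm cx) (Ne.symm cz)
  rcases good_pair L _ _ _ _ _ _ hR h1 h2 with h | h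
  · refine ⟨u a, u b, u c, [u x, u y, u z], ?_, okX3, ?_, ?_, h, h1⟩
    · simp [hu _ _ ab, hu _ _ ac, hu _ _ bc]
    · intro w hw
      simp only [List.mem_cons, List.not_mem_nil, or_false] at hw
      rcases hw with rfl | rfl | rfl
      · exact ⟨rfl, by simp [hu _ _ ax, hu _ _ ay, hu _ _ az]⟩
      · exact ⟨rfl, by simp [hu _ _ bx, hu _ _ by', hu _ _ bz]⟩
      · exact ⟨rfl, by simp [hu _ _ cx, hu _ _ cy, hu _ _ cz]⟩
    · intro w hw
      simp only [List.mem_cons, List.not_mem_nil, or_false] at hw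
      rcases hw with rfl | rfl | rfl <;> rfl
  · refine ⟨u a, u b, u c, [u x, u z], ?_, okX2, ?_, ?_, h, h2⟩
    · simp [hu _ _ ab, hu _ _ ac, hu _ _ bc]
    · intro w hw
      simp only [List.mem_cons, List.not_mem_nil, or_false] at hw
      rcases hw with rfl | rfl | rfl
      · exact ⟨rfl, by simp [hu _ _ ax, hu _ _ az]⟩
      · exact ⟨rfl, by simp [hu _ _ bx, hu _ _ bz]⟩
      · exact ⟨rfl, by simp [hu _ _ cx, hu _ _ cz]⟩
    · intro w hw
      simp only [List.mem_cons, List.not_mem_nil, or_false] at hw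
      rcases hw with rfl | rfl <;> rfl

/-! ### concatenation -/

section
variable {V J : Type} (a b c : J → V)

/-- the list of a block -/
def blk (ε : J → Bool) (j : J) : List V := if ε j then [a j, b j, c j] else [a j, c j]

/-- first vertex of the next block -/
def hda (a : J → V) (z : V) : List J → V
  | [] => z
  | j :: _ => a j

theorem hd_flat (ε : J → Bool) (z : V) (js : List J) :
    hd z (js.flatMap (blk a b c ε)) = hda a z js := by
  cases js with
  | nil => rfl
  | cons j js =>
    rw [List.flatMap_cons]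
    unfold blk
    cases ε j <;> rfl

theorem ps_flat (ψ : V → V → ZMod 2) (z : V) (js : List J) :
    ∃ K : ZMod 2, ∀ ε : J → Bool, ps ψ z (js.flatMap (blk a b c ε)) =
      K + (js.map fun j => if ε j then ψ (a j) (b j) + ψ (b j) (c j) + ψ (a j) (c j) else 0).sum := by
  induction js with
  | nil => exact ⟨0, fun ε => by simp [ps, dts]⟩
  | cons j js ih =>
    obtain ⟨K, hK⟩ := ih
    refine ⟨K + ψ (a j) (c j) + ψ (c j) (hda a z js), fun ε => ?_⟩
    rw [List.flatMap_cons, List.map_cons, List.sum_cons]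
    have h1 := hd_flat a b c ε z js
    have h2 := hK ε
    unfold ps at h2 ⊢
    unfold blk
    by_cases h : ε j
    · rw [if_pos h, if_pos h]
      show ((dts z (a j :: b j :: c j :: _)).map fun e => ψ e.1 e.2).sum = _
      simp only [dts, List.map_cons, List.sum_cons, hd]
      change ψ (a j) (b j) + (ψ (b j) (c j) + (ψ (c j) (hd z (js.flatMap (blk a b c ε))) +
        ((dts z (js.flatMap (blk a b c ε))).map fun e => ψ e.1 e.2).sum)) = _
      rw [h1, h2]
      linear_combination (- ψ (a j) (c j)) * two0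
    · rw [if_neg h, if_neg h]
      show ((dts z (a j :: c j :: _)).map fun e => ψ e.1 e.2).sum = _
      simp only [dts, List.map_cons, List.sum_cons, hd]
      change (ψ (a j) (c j) + (ψ (c j) (hd z (js.flatMap (blk a b c ε))) +
        ((dts z (js.flatMap (blk a b c ε))).map fun e => ψ e.1 e.2).sum)) = _
      rw [h1, h2]
      ring

end

/-! ### stars -/

theorem comb (k : ℕ) (hk : 0 < k) : ∃ m B : ℕ, ∀ L : (Fin m × Fin B) → (Fin m × Fin B) →
    (Fin m × Fin B) → (Fin m × Fin B) → ZMod 2,
    (∀ v : Fin 6 → Fin m × Fin B, Function.Injective v →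
      ten (fun a b x y => L (v a) (v b) (v x) (v y)) = 1) → Star L k := by
  classical
  refine ⟨2 * k, 6 * (300 * k + 5) + 1, ?_⟩
  intro L hL
  by_contra hns
  have hex : ∀ X : List (Fin (2 * k) × Fin (6 * (300 * k + 5) + 1)), ∃ T : Finset _, T.card ≤ 2 * k ∧
      (Ok X → ∀ a b, a ≠ b → a ∉ X → b ∉ X → a ∉ T → b ∉ T → lk L [a, b] X = 0) := by
    intro X
    by_cases hX : Ok X
    · rcases matching (fun a b => lk L [a, b] X = 1) (fun a => a ∉ X) k with ⟨T, hT, h⟩ | ⟨F, h1, h2, h3⟩
      · refine ⟨T, hT, fun _ a b hab ha hb ha' hb' => ?_⟩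
        exact (z2_cases _).resolve_right (h a b hab ha hb ha' hb')
      · exfalso
        apply hns
        refine ⟨X, F, h1, ?_, ?_, ?_⟩
        · rw [List.pairwise_cons]
          refine ⟨?_, h2⟩
          intro l hl x hx hx'
          obtain ⟨a, b, rfl, _, ha, hb, _⟩ := h3 l hl
          simp only [List.mem_cons, List.not_mem_nil, or_false] at hx'
          rcases hx' with rfl | rfl
          · exact ha hx
          · exact hb hx
        · intro l hl
          rcases List.mem_cons.mp hl with rfl | hl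
          · exact hX
          · obtain ⟨a, b, rfl, hab, _⟩ := h3 l hl
            exact ⟨by simp [hab], by simp⟩
        · intro l hl
          obtain ⟨a, b, rfl, _, _, _, h⟩ := h3 l hl
          exact Or.inr h
    · exact ⟨∅, by simp, fun h => absurd h hX⟩
  choose T hT hT2 using hex
  have hbl := fun j => block (m := 2 * k) (B := 6 * (300 * k + 5) + 1) (k := k) (by omega) L hL T hT hT2 j
  choose a b c X hnd hok hdis hX h1 h0 using hbl
  -- base vertex and the coordinates
  have hm : 0 < 2 * k := by omega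
  obtain ⟨j₀, js, hjs⟩ : ∃ j₀ js, List.finRange (2 * k) = j₀ :: js := by
    cases h : List.finRange (2 * k) with
    | nil =>
      have := congrArg List.length h
      simp at this
      omega
    | cons j₀ js => exact ⟨j₀, js, rfl⟩
  let Z : (Fin (2 * k) → Bool) → List (Fin (2 * k) × Fin (6 * (300 * k + 5) + 1)) := fun ε =>
    (List.finRange (2 * k)).flatMap (blk a b c ε)
  have hZcs : ∀ ε ψ, cs ψ (Z ε) = ps ψ (a j₀) (Z ε) := by
    intro ε ψ
    have e1 : hd (a j₀) (Z ε) = a j₀ := by
      have := hd_flat a b c ε (a j₀) (List.finRange (2 * k))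
      rw [hjs] at this
      show hd (a j₀) ((List.finRange (2 * k)).flatMap (blk a b c ε)) = _
      rw [hjs]
      exact this
    unfold cs ps
    cases hZ : Z ε with
    | nil => rfl
    | cons z l =>
      rw [hZ] at e1
      have e2 : z = a j₀ := e1
      rw [e2]
      rfl
  have hlk : ∀ i, ∃ K : ZMod 2, ∀ ε, lk L (Z ε) (X i) = K + ∑ j, (if ε j then
      lk L [a j, b j, c j] (X i) + lk L [a j, c j] (X i) else 0) := by
    intro i
    obtain ⟨K, hK⟩ := ps_flat a b c (fun p q => cs (fun x y => L p q x y) (X i)) (a j₀)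
      (List.finRange (2 * k))
    refine ⟨K, fun ε => ?_⟩
    have e1 : lk L (Z ε) (X i) = ps (fun p q => cs (fun x y => L p q x y) (X i)) (a j₀) (Z ε) :=
      hZcs ε _
    rw [e1, hK ε]
    congr 1
    rw [← List.sum_ofFn, List.ofFn_eq_map]
    congr 1
    apply List.map_congr_left
    intro j _
    by_cases h : ε j
    · rw [if_pos h, if_pos h]
      unfold lk
      simp only [cs3, cs2]
      linear_combination (-cs (fun x y => L (c j) (a j) x y) (X i)) * two0
    · rw [if_neg h, if_neg h]
  choose K hK using hlk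
  obtain ⟨ε, hε⟩ := avg k K (fun j i => lk L [a j, b j, c j] (X i) + lk L [a j, c j] (X i)) (by
    intro i
    rw [h1, h0, add_zero])
  obtain ⟨I, hI, hIk⟩ := Finset.exists_subset_card_eq hε
  apply hns
  have hmemblk : ∀ j x, x ∈ blk a b c ε j → x ∈ [a j, b j, c j] := by
    intro j x hx
    unfold blk at hx
    by_cases h : ε j
    · rw [if_pos h] at hx; exact hx
    · rw [if_neg h] at hx
      simp only [List.mem_cons, List.not_mem_nil, or_false] at hx ⊢
      tauto
  have hmemZ : ∀ x ∈ Z ε, ∃ j, x ∈ [a j, b j, c j] := by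
    intro x hx
    obtain ⟨j, _, hj⟩ := List.mem_flatMap.mp hx
    exact ⟨j, hmemblk j x hj⟩
  have hZX : ∀ i, List.Disjoint (Z ε) (X i) := by
    intro i x hx hx'
    obtain ⟨j, hj⟩ := hmemZ x hx
    have e1 := (hdis j x hj).1
    have e2 := hX i x hx'
    have e3 : j = i := e1.symm.trans e2
    subst e3
    exact (hdis j x hj).2 hx'
  refine ⟨Z ε, I.toList.map X, by simp [hIk], ?_, ?_, ?_⟩
  · rw [List.pairwise_cons]
    constructor
    · intro l hl
      obtain ⟨i, _, rfl⟩ := List.mem_map.mp hl
      exact hZX i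
    · rw [List.pairwise_map]
      apply (Finset.nodup_toList I).imp
      intro i j hij x hx hx'
      exact hij ((hX i x hx).symm.trans (hX j x hx'))
  · intro l hl
    rcases List.mem_cons.mp hl with rfl | hl
    · constructor
      · show ((List.finRange (2 * k)).flatMap (blk a b c ε)).Nodup
        rw [List.nodup_flatMap]
        constructor
        · intro j _
          have := hnd j
          unfold blk
          by_cases h : ε j
          · rw [if_pos h]; exact this
          · rw [if_neg h]
            simp only [List.nodup_cons, List.mem_cons, List.not_mem_nil, or_false, not_or,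
              not_false_eq_true, List.nodup_nil, and_true] at this ⊢
            exact this.1.2
        · apply (List.nodup_finRange (2 * k)).imp
          intro i j hij x hx hx'
          have e1 := (hdis i x (hmemblk i x hx)).1
          have e2 := (hdis j x (hmemblk j x hx')).1
          exact hij (e1.symm.trans e2)
      · show 2 ≤ ((List.finRange (2 * k)).flatMap (blk a b c ε)).length
        rw [hjs, List.flatMap_cons, List.length_append]
        have : 2 ≤ (blk a b c ε j₀).length := by
          unfold blk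
          cases ε j₀ <;> simp
        omega
    · obtain ⟨i, _, rfl⟩ := List.mem_map.mp hl
      exact hok i
  · intro l hl
    obtain ⟨i, hi, rfl⟩ := List.mem_map.mp hl
    left
    rw [hK i ε]
    exact (Finset.mem_filter.mp (hI (Finset.mem_toList.mp hi))).2

end Pool.Agent.Q126.DL
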