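import Pool.Agent.Helper683.Lk.Set
import Pool.Agent.Helper683.Lk.K6P

/-! Closed curves along lists of vertices of a complete symmetric directed graph with given arcs. -/

set_option autoImplicit false
set_option maxHeartbeats 4000000

namespace Pool.Agent.Q126.DL

open Pool.Agent.Helper683 Pool.Agent.Helper683.Lk Set Metric Topology Filter

/-- points for the vertices and paths for the ordered pairs of vertices; the paths of disjoint pairs
are disjoint -/
structure Dat (V : Type) where
  pos : V → Lk.R3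
  arc : ∀ a b : V, Path (pos a) (pos b)
  dis : ∀ a b c d : V, a ≠ b → c ≠ d → a ≠ c → a ≠ d → b ≠ c → b ≠ d → ∀ s t,
    arc a b s ≠ arc c d t

variable {V : Type} (E : Dat V)

/-- head of a list with default -/
def hd (z : V) : List V → V
  | [] => z
  | x :: _ => x

/-- the arcs of the walk through a list of vertices, and then to `z` -/
def dts (z : V) : List V → List (V × V)
  | [] => []
  | x :: l => (x, hd z l) :: dts z l

theorem dts_length (z : V) : ∀ l : List V, (dts z l).length = l.length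
  | [] => rfl
  | x :: l => by rw [dts, List.length_cons, List.length_cons, dts_length z l]

/-- the curve along the list of vertices `l`, and then to `z` -/
noncomputable def curve (z : V) : ∀ l : List V, Path (E.pos (hd z l)) (E.pos z)
  | [] => Path.refl _
  | x :: l => (E.arc x (hd z l)).trans (curve z l)

/-- sampled points along the curve -/
noncomputable def sp (M : ℕ) (z : V) : List V → ℕ → Lk.R3
  | [] => fun _ => E.pos z
  | x :: l => fun i => if i < M then inscribed (E.arc x (hd z l)) M i else sp M z l (i - M)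

/-- sampled points of one arc -/
noncomputable def pt (M : ℕ) (a b : V) (i : ℕ) : Lk.R3 := inscribed (E.arc a b) M i

theorem sub_curve {M : ℕ} (hM : 0 < M) {ρ : ℝ} (hρ : 0 < ρ)
    (hmod : ∀ a b : V, Mod (E.arc a b) M ρ) (z : V) : ∀ (l : List V) (c : ℕ),
    0 < c → Sub (curve E z l) (c * 2 ^ l.length * M) (sp E M z l) (M * l.length + 1) ρ
  | [], c, _ => by
    have := sub_refl (E.pos z) (c * M) hρ
    simpa [curve, sp, hd] using this
  | x :: l, c, hc => by
    have h1 := sub_unif (hmod x (hd z l)) (c := c * 2 ^ l.length) (by positivity) hM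
    have h2 := sub_curve hM hρ hmod z l c hc
    have h3 := sub_trans (K := c * 2 ^ l.length * M) (by positivity) h1 h2
    have e1 : c * 2 ^ (x :: l).length * M = 2 * (c * 2 ^ l.length * M) := by
      rw [List.length_cons]; ring
    have e2 : M * (x :: l).length + 1 = M + (M * l.length + 1) := by
      rw [List.length_cons]; ring
    rw [e1, e2]
    exact h3

theorem sp_zero {M : ℕ} (hM : 0 < M) (z : V) (l : List V) : sp E M z l 0 = E.pos (hd z l) := by
  cases l with
  | nil => rfl
  | cons x l => unfold sp; rw [if_pos hM]; exact insc_zero _ _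

theorem sp_sum {M : ℕ} (hM : 0 < M) (F : Lk.R3 → Lk.R3 → ℤ)
    (hF : ∀ x, F x x = 0) (z : V) : ∀ l : List V,
    ∑ i ∈ Finset.range (M * l.length + 1), F (sp E M z l i) (sp E M z l (i + 1)) =
      ((dts z l).map fun d => ∑ i ∈ Finset.range M, F (pt E M d.1 d.2 i) (pt E M d.1 d.2 (i + 1))).sum
  | [] => by
    simp [sp, hF, dts]
  | x :: l => by
    rw [List.length_cons, dts, List.map_cons, List.sum_cons,
      ← sp_sum hM F hF z l]
    have e : M * (l.length + 1) + 1 = M + (M * l.length + 1) := by ring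
    rw [e, Finset.sum_range_add]
    congr 1
    · apply Finset.sum_congr rfl
      intro i hi
      rw [Finset.mem_range] at hi
      unfold pt sp
      rw [if_pos hi]
      by_cases h' : i + 1 < M
      · rw [if_pos h']
      · rw [if_neg h']
        have e' : i + 1 = M := by omega
        rw [e', Nat.sub_self, sp_zero E hM, insc_last _ hM]
    · apply Finset.sum_congr rfl
      intro i hi
      conv_lhs => unfold sp
      rw [if_neg (by omega), if_neg (by omega), Nat.add_sub_cancel_left,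
        show M + i + 1 - M = i + 1 by omega]

/-- every sampled edge lies on a sampled edge of an arc -/
theorem sp_edge {M : ℕ} (hM : 0 < M) (z : V) : ∀ l : List V,
    0 < l.length → ∀ i < M * l.length + 1, ∃ d ∈ dts z l, ∃ k < M,
      (sp E M z l i = pt E M d.1 d.2 k ∨ sp E M z l i = pt E M d.1 d.2 (k + 1)) ∧
      (sp E M z l (i + 1) = pt E M d.1 d.2 k ∨ sp E M z l (i + 1) = pt E M d.1 d.2 (k + 1))
  | [], h0, _, _ => by simp at h0
  | x :: l, _, i, hi => by
    rw [List.length_cons] at hi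
    have hMM : M * (l.length + 1) + 1 = M + (M * l.length + 1) := by ring
    rw [hMM] at hi
    by_cases hiM : i < M
    · refine ⟨(x, hd z l), by simp [dts], i, hiM, ?_, ?_⟩
      · left
        unfold pt sp
        rw [if_pos hiM]
      · right
        unfold pt sp
        by_cases h' : i + 1 < M
        · rw [if_pos h']
        · rw [if_neg h']
          have e' : i + 1 = M := by omega
          rw [e', Nat.sub_self, sp_zero E hM, insc_last _ hM]
    · have e1 : sp E M z (x :: l) i = sp E M z l (i - M) := by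
        conv_lhs => unfold sp
        rw [if_neg hiM]
      have e2 : sp E M z (x :: l) (i + 1) = sp E M z l (i - M + 1) := by
        conv_lhs => unfold sp
        rw [if_neg (by omega), show i + 1 - M = i - M + 1 by omega]
      rw [e1, e2]
      by_cases hw : 0 < l.length
      · obtain ⟨d, hd', k, hk, h1, h2⟩ := sp_edge hM z l hw (i - M) (by omega)
        exact ⟨d, by rw [dts]; exact List.mem_cons_of_mem _ hd', k, hk, h1, h2⟩
      · refine ⟨(x, hd z l), by simp [dts], M - 1, by omega, ?_⟩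
        unfold pt
        dsimp only
        rw [show M - 1 + 1 = M by omega, insc_last _ hM]
        cases l with
        | nil => exact ⟨Or.inr rfl, Or.inr rfl⟩
        | cons h' w' => simp at hw

theorem range_curve_cons (z x : V) (l : List V) :
    range (curve E z (x :: l)) = range (E.arc x (hd z l)) ∪ range (curve E z l) :=
  Path.trans_range _ _

/-- every point of the curve is on one of its arcs -/
theorem curve_mem (z : V) : ∀ l : List V, 0 < l.length → ∀ t : ℝ,
    ∃ d ∈ dts z l, ∃ s : ℝ, (curve E z l).extend t = (E.arc d.1 d.2).extend s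
  | [], h0, _ => by simp at h0
  | x :: l, _, t => by
    show ∃ d ∈ dts z (x :: l), ∃ s : ℝ,
      ((E.arc x (hd z l)).trans (curve E z l)).extend t = (E.arc d.1 d.2).extend s
    rcases le_total t (1 / 2) with ht | ht
    · rw [Path.extend_trans_of_le_half _ _ ht]
      exact ⟨(x, hd z l), by simp [dts], 2 * t, rfl⟩
    · rw [Path.extend_trans_of_half_le _ _ ht]
      by_cases hw : 0 < l.length
      · obtain ⟨d, hd', s, hs⟩ := curve_mem z l hw (2 * t - 1)
        exact ⟨d, by rw [dts]; exact List.mem_cons_of_mem _ hd', s, hs⟩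
      · refine ⟨(x, hd z l), by simp [dts], 1, ?_⟩
        rw [Path.extend_one]
        cases l with
        | nil => simp [curve]; rfl
        | cons h' w' => simp at hw

/-- the range of the curve is the union of its arcs -/
theorem range_curve (z : V) : ∀ l : List V, l ≠ [] →
    range (curve E z l) = ⋃ d ∈ dts z l, range (E.arc d.1 d.2)
  | [], h => absurd rfl h
  | [x], _ => by
    rw [range_curve_cons]
    simp only [dts, List.mem_singleton, iUnion_iUnion_eq_left, hd]
    apply Set.Subset.antisymm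
    · rintro _ (h | ⟨t, rfl⟩)
      · exact h
      · exact ⟨1, (E.arc x z).target⟩
    · exact subset_union_left
  | x :: y :: l, _ => by
    rw [range_curve_cons, range_curve z (y :: l) (by simp)]
    rw [show dts z (x :: y :: l) = (x, hd z (y :: l)) :: dts z (y :: l) from rfl]
    simp only [List.mem_cons, iUnion_iUnion_eq_or_left]

/-! ### constants -/

/-- scale, subdivision and direction -/
structure Scale where
  ρ : ℝ
  hρ : 0 < ρ
  far : ∀ a b c d : V, a ≠ b → c ≠ d → a ≠ c → a ≠ d → b ≠ c → b ≠ d →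
    ∀ s t : ℝ, 2 * ρ ≤ dist ((E.arc a b).extend s) ((E.arc c d).extend t)
  M : ℕ
  hM : 0 < M
  mod : ∀ a b : V, Mod (E.arc a b) M ρ
  v : Lk.R3
  hv : v ≠ 0
  reg : ∀ a b x y : V, a ≠ b → x ≠ y → a ≠ x → a ≠ y → b ≠ x → b ≠ y → ∀ i < M, ∀ j < M,
    RegPair v (pt E M a b i) (pt E M a b (i + 1)) (pt E M x y j) (pt E M x y (j + 1))
  dis : ∀ a b x y : V, a ≠ b → x ≠ y → a ≠ x → a ≠ y → b ≠ x → b ≠ y → ∀ i < M, ∀ j < M,
    Disjoint (segment ℝ (pt E M a b i) (pt E M a b (i + 1)))
      (segment ℝ (pt E M x y j) (pt E M x y (j + 1)))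

theorem exists_scale [Finite V] : Nonempty (Scale E) := by
  classical
  have := Fintype.ofFinite V
  have hf : ∀ᶠ ρ : ℝ in 𝓝[>] 0, ∀ q : V × V × V × V,
      q.1 ≠ q.2.1 → q.2.2.1 ≠ q.2.2.2 → q.1 ≠ q.2.2.1 → q.1 ≠ q.2.2.2 →
      q.2.1 ≠ q.2.2.1 → q.2.1 ≠ q.2.2.2 →
      ∀ s t : ℝ, 2 * ρ ≤ dist ((E.arc q.1 q.2.1).extend s) ((E.arc q.2.2.1 q.2.2.2).extend t) := by
    rw [Filter.eventually_all]
    rintro ⟨a, b, x, y⟩
    by_cases hh : a ≠ b ∧ x ≠ y ∧ a ≠ x ∧ a ≠ y ∧ b ≠ x ∧ b ≠ y
    · obtain ⟨h1, h2, h3, h4, h5, h6⟩ := hh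
      filter_upwards [ev_far (E.arc a b) (E.arc x y) (E.dis a b x y h1 h2 h3 h4 h5 h6)] with ρ hρ
      intro _ _ _ _ _ _
      exact hρ
    · apply Filter.Eventually.of_forall
      intro ρ h h' h3 h4 h5 h6
      exact absurd ⟨h, h', h3, h4, h5, h6⟩ hh
  obtain ⟨ρ, hfar, hρ⟩ := (hf.and self_mem_nhdsWithin).exists
  have hm : ∀ᶠ M : ℕ in atTop, ∀ q : V × V, Mod (E.arc q.1 q.2) M ρ := by
    rw [Filter.eventually_all]
    rintro ⟨a, b⟩
    exact ev_Mod (E.arc a b) hρ
  obtain ⟨M, hmod, hM⟩ := (hm.and (Filter.eventually_gt_atTop 0)).exists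
  have hdis : ∀ a b x y : V, a ≠ b → x ≠ y → a ≠ x → a ≠ y → b ≠ x → b ≠ y → ∀ i < M, ∀ j < M,
    Disjoint (segment ℝ (pt E M a b i) (pt E M a b (i + 1)))
      (segment ℝ (pt E M x y j) (pt E M x y (j + 1))) := by
    intro a b x y h1 h2 h3 h4 h5 h6 i _ j _
    exact seg_disjoint ((hmod (a, b)).step hM le_rfl i) ((hmod (x, y)).step hM le_rfl j)
      (hfar (a, b, x, y) h1 h2 h3 h4 h5 h6 _ _)
  obtain ⟨v, hv, hreg⟩ := exists_dir
    (((Finset.univ : Finset (V × V × V × V)).filter fun q =>
      q.1 ≠ q.2.1 ∧ q.2.2.1 ≠ q.2.2.2 ∧ q.1 ≠ q.2.2.1 ∧ q.1 ≠ q.2.2.2 ∧ q.2.1 ≠ q.2.2.1 ∧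
        q.2.1 ≠ q.2.2.2) ×ˢ (Finset.range M ×ˢ Finset.range M))
    (fun t => pt E M t.1.1 t.1.2.1 t.2.1) (fun t => pt E M t.1.1 t.1.2.1 (t.2.1 + 1))
    (fun t => pt E M t.1.2.2.1 t.1.2.2.2 t.2.2) (fun t => pt E M t.1.2.2.1 t.1.2.2.2 (t.2.2 + 1)) (by
      rintro ⟨⟨a, b, x, y⟩, i, j⟩ ht
      simp only [Finset.mem_product, Finset.mem_filter, Finset.mem_univ, true_and,
        Finset.mem_range] at ht
      obtain ⟨⟨h1, h2, h3, h4, h5, h6⟩, h7, h8⟩ := ht
      exact hdis a b x y h1 h2 h3 h4 h5 h6 i h7 j h8)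
  refine ⟨⟨ρ, hρ, ?_, M, hM, ?_, v, hv, ?_, hdis⟩⟩
  · intro a b x y h h' h3 h4 h5 h6 s t
    exact hfar (a, b, x, y) h h' h3 h4 h5 h6 s t
  · intro a b
    exact hmod (a, b)
  · intro a b x y h1 h2 h3 h4 h5 h6 i hi j hj
    apply hreg ((a, b, x, y), i, j)
    simp only [Finset.mem_product, Finset.mem_filter, Finset.mem_univ, true_and, Finset.mem_range]
    exact ⟨⟨h1, h2, h3, h4, h5, h6⟩, hi, hj⟩

theorem regPair_sub {v a b c d a' b' c' d' : Lk.R3} (h : RegPair v a b c d)
    (ha : a' = a ∨ a' = b) (hb : b' = a ∨ b' = b) (hc : c' = c ∨ c' = d) (hd : d' = c ∨ d' = d) :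
    RegPair v a' b' c' d' := by
  have s1 : segment ℝ a' b' ⊆ segment ℝ a b := by
    apply (convex_segment a b).segment_subset
    · rcases ha with rfl | rfl
      · exact left_mem_segment ℝ _ _
      · exact right_mem_segment ℝ _ _
    · rcases hb with rfl | rfl
      · exact left_mem_segment ℝ _ _
      · exact right_mem_segment ℝ _ _
  have s2 : segment ℝ c' d' ⊆ segment ℝ c d := by
    apply (convex_segment c d).segment_subset
    · rcases hc with rfl | rfl
      · exact left_mem_segment ℝ _ _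
      · exact right_mem_segment ℝ _ _
    · rcases hd with rfl | rfl
      · exact left_mem_segment ℝ _ _
      · exact right_mem_segment ℝ _ _
  refine ⟨fun y hy t => ⟨?_, ?_⟩, fun y hy t => ⟨?_, ?_⟩⟩
  · rcases ha with rfl | rfl
    · exact (h.1 y (s2 hy) t).1
    · exact (h.1 y (s2 hy) t).2
  · rcases hb with rfl | rfl
    · exact (h.1 y (s2 hy) t).1
    · exact (h.1 y (s2 hy) t).2
  · rcases hc with rfl | rfl
    · exact (h.2 y (s1 hy) t).1
    · exact (h.2 y (s1 hy) t).2
  · rcases hd with rfl | rfl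
    · exact (h.2 y (s1 hy) t).1
    · exact (h.2 y (s1 hy) t).2

variable {E} (S : Scale E)

/-- two lists of arcs which are disjoint -/
def DD (A B : List (V × V)) : Prop :=
  ∀ e ∈ A, ∀ f ∈ B, e.1 ≠ e.2 ∧ f.1 ≠ f.2 ∧ e.1 ≠ f.1 ∧ e.1 ≠ f.2 ∧ e.2 ≠ f.1 ∧ e.2 ≠ f.2

theorem sp_pair {z z' : V} {l l' : List V} (hd : DD (dts z l) (dts z' l')) (hw : 0 < l.length)
    (hw' : 0 < l'.length) :
    ∀ i < S.M * l.length + 1, ∀ j < S.M * l'.length + 1,
      RegPair S.v (sp E S.M z l i) (sp E S.M z l (i + 1)) (sp E S.M z' l' j)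
        (sp E S.M z' l' (j + 1)) := by
  intro i hi j hj
  obtain ⟨e, he, k, hk, e1, e2⟩ := sp_edge E S.hM z l hw i hi
  obtain ⟨f, hf, m, hm, f1, f2⟩ := sp_edge E S.hM z' l' hw' j hj
  obtain ⟨h1, h2, h3, h4, h5, h6⟩ := hd e he f hf
  exact regPair_sub (S.reg _ _ _ _ h1 h2 h3 h4 h5 h6 k hk m hm) e1 e2 f1 f2

/-- the closed curve of a list -/
noncomputable def ccurve (E : Dat V) (x : V) (l : List V) : Path (E.pos x) (E.pos x) :=
  curve E x (x :: l)

/-- the linking number of two disjoint closed lists -/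
theorem isLk {x y : V} {l l' : List V} (hd : DD (dts x (x :: l)) (dts y (y :: l'))) :
    IsLinkingNumber (ccurve E x l) (ccurve E y l')
      (crossSum S.v (S.M * (x :: l).length + 1) (sp E S.M x (x :: l))
        (S.M * (y :: l').length + 1) (sp E S.M y (y :: l'))) := by
  have hM := S.hM
  have hw : 0 < (x :: l).length := by simp
  have hw' : 0 < (y :: l').length := by simp
  unfold ccurve
  refine isLk_of (k := 2 ^ (x :: l).length * S.M) (k' := 2 ^ (y :: l').length * S.M) S.hρ
    ?_ ?_ ?_ ?_ ?_ ?_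
  · intro s t
    obtain ⟨e, he, s', hs'⟩ := curve_mem E x (x :: l) hw s
    obtain ⟨f, hf, t', ht'⟩ := curve_mem E y (y :: l') hw' t
    have := hd e he f hf
    obtain ⟨h1, h2, h3, h4, h5, h6⟩ := this
    have h7 := S.far _ _ _ _ h1 h2 h3 h4 h5 h6 s' t'
    rw [← hs', ← ht'] at h7
    exact h7
  · positivity
  · positivity
  · intro n hn
    have := sub_curve E hM S.hρ S.mod x (x :: l) n hn
    rwa [mul_assoc] at this
  · intro n hn
    have := sub_curve E hM S.hρ S.mod y (y :: l') n hn
    rwa [mul_assoc] at this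
  · exact regular_of S.hv (by omega) (by omega) fun i hi j hj =>
      sp_pair S hd hw hw' i hi j hj

/-- pairing of two arcs -/
noncomputable def T (a b x y : V) : ℤ := crossSum S.v S.M (pt E S.M a b) S.M (pt E S.M x y)

theorem sum_list {α : Type*} (l : List α) (s : Finset ℕ) (f : ℕ → α → ℤ) :
    ∑ i ∈ s, (l.map (f i)).sum = (l.map fun x => ∑ i ∈ s, f i x).sum := by
  induction l with
  | nil => simp
  | cons a l ih => simp only [List.map_cons, List.sum_cons]; rw [Finset.sum_add_distrib, ih]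

theorem sp_T (z z' : V) (l l' : List V) :
    crossSum S.v (S.M * l.length + 1) (sp E S.M z l) (S.M * l'.length + 1) (sp E S.M z' l') =
      ((dts z' l').map fun f => ((dts z l).map fun e => T S e.1 e.2 f.1 f.2).sum).sum := by
  have h1 : ∀ p q : Lk.R3, (∑ i ∈ Finset.range (S.M * l.length + 1),
      crossSign S.v (sp E S.M z l i) (sp E S.M z l (i + 1)) p q) =
      ((dts z l).map fun d => ∑ i ∈ Finset.range S.M,
        crossSign S.v (pt E S.M d.1 d.2 i) (pt E S.M d.1 d.2 (i + 1)) p q).sum := fun p q =>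
    sp_sum E S.hM (fun p' q' => crossSign S.v p' q' p q) (fun x => cs_deg12 _ _ _ _) z l
  unfold crossSum
  rw [Finset.sum_comm, sp_sum E S.hM (fun p q => ∑ i ∈ Finset.range (S.M * l.length + 1),
      crossSign S.v (sp E S.M z l i) (sp E S.M z l (i + 1)) p q)
    (fun x => Finset.sum_eq_zero fun i _ => cs_deg34 _ _ _ _) z' l']
  congr 1
  apply List.map_congr_left
  intro f _
  rw [Finset.sum_congr rfl fun j _ => h1 _ _, sum_list]
  congr 1
  apply List.map_congr_left
  intro e _
  unfold T crossSum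
  exact Finset.sum_comm

/-- pairing mod two -/
noncomputable def L2 (a b x y : V) : ZMod 2 := ((T S a b x y : ℤ) : ZMod 2)

/-- Conway-Gordon-Sachs -/
theorem conway_gordon (v : Fin 6 → V) (hv : Function.Injective v) :
    ten (fun a b x y => L2 S (v a) (v b) (v x) (v y)) = 1 := by
  apply k6_poly (fun i => E.pos (v i)) (fun a b => pt E S.M (v a) (v b)) S.M S.hM
  · intro a b _
    exact insc_zero _ _
  · intro a b _
    exact insc_last _ S.hM
  · exact S.hv
  · intro a b x y h1 h2 h3 h4 h5 h6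
    exact S.reg _ _ _ _ (hv.ne h1.ne) (hv.ne h2.ne) (hv.ne h3) (hv.ne h4) (hv.ne h5) (hv.ne h6)
  · intro a b x y h1 h2 h3 h4 h5 h6
    exact S.dis _ _ _ _ (hv.ne h1.ne) (hv.ne h2.ne) (hv.ne h3) (hv.ne h4) (hv.ne h5) (hv.ne h6)

end Pool.Agent.Q126.DL
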