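import Mathlib

/-! Maps from closed subsets of the plane to the two-sphere extend to the plane. -/

set_option autoImplicit false

namespace Pool.Agent.Q126.DL

open Set Metric Topology

abbrev R3 := EuclideanSpace ℝ (Fin 3)

/-- A continuous map from a closed subset of the plane to the unit sphere of three-space extends to
the whole plane. -/
theorem exists_sphere_extension {A : Set (ℝ × ℝ)} (hA : IsClosed A) (f : C(A, R3))
    (hf : ∀ x, ‖f x‖ = 1) :
    ∃ F : ℝ × ℝ → R3, Continuous F ∧ (∀ x, ‖F x‖ = 1) ∧ ∀ x : A, F x = f x := by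
  obtain ⟨F0, hF0⟩ := ContinuousMap.exists_restrict_eq hA f
  have hF0' : ∀ x : A, F0 x = f x := fun x => by
    rw [← hF0]; rfl
  obtain ⟨G, hG, hGF, -⟩ := Continuous.exists_contDiff_approx (f := F0) (ε := fun _ => (1 / 4 : ℝ))
    1 F0.continuous continuous_const (fun _ => by norm_num)
  have hd : Dense (range G)ᶜ := by
    apply ContDiff.dense_compl_range_of_finrank_lt_finrank hG
    simp
  obtain ⟨c, hc, hc'⟩ := hd.exists_dist_lt (0 : R3) (show (0 : ℝ) < 1 / 4 by norm_num)
  have hcn : ‖c‖ < 1 / 4 := by rwa [dist_comm, dist_zero_right] at hc'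
  set lam : ℝ × ℝ → ℝ := fun x => max 0 (min 1 ((‖F0 x‖ - 3 / 4) * 4)) with hlam
  have hlc : Continuous lam := by
    have := F0.continuous
    fun_prop
  have hl0 : ∀ x, 0 ≤ lam x := fun x => le_max_left _ _
  have hl1 : ∀ x, lam x ≤ 1 := fun x => max_le (by norm_num) (min_le_left _ _)
  set E : ℝ × ℝ → R3 := fun x => lam x • F0 x + (1 - lam x) • (G x - c) with hE
  have hEc : Continuous E := by
    have h1 := F0.continuous
    have h2 := hG.continuous
    fun_prop
  have hclose : ∀ x, ‖(G x - c) - F0 x‖ ≤ 1 / 2 := by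
    intro x
    have h1 := hGF x
    rw [dist_eq_norm] at h1
    calc ‖(G x - c) - F0 x‖ = ‖(G x - F0 x) - c‖ := by congr 1; abel
      _ ≤ ‖G x - F0 x‖ + ‖c‖ := norm_sub_le _ _
      _ ≤ 1 / 2 := by linarith
  have hE0 : ∀ x, E x ≠ 0 := by
    intro x hx
    by_cases h : ‖F0 x‖ ≤ 3 / 4
    · have hz : lam x = 0 := by
        apply max_eq_left
        exact (min_le_right _ _).trans (by linarith)
      have : E x = G x - c := by simp [hE, hz]
      rw [this, sub_eq_zero] at hx
      exact hc ⟨x, hx⟩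
    · push Not at h
      have e : E x - F0 x = (1 - lam x) • ((G x - c) - F0 x) := by
        simp only [hE]; module
      have : ‖E x - F0 x‖ ≤ 1 / 2 := by
        rw [e, norm_smul, Real.norm_of_nonneg (by linarith [hl1 x])]
        calc (1 - lam x) * ‖(G x - c) - F0 x‖ ≤ 1 * (1 / 2) := by
              apply mul_le_mul (by linarith [hl0 x]) (hclose x) (norm_nonneg _) (by norm_num)
          _ = 1 / 2 := by norm_num
      rw [hx, zero_sub, norm_neg] at this
      linarith
  refine ⟨fun x => ‖E x‖⁻¹ • E x, ?_, ?_, ?_⟩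
  · exact (hEc.norm.inv₀ fun x => norm_ne_zero_iff.mpr (hE0 x)).smul hEc
  · intro x
    rw [norm_smul, norm_inv, norm_norm, inv_mul_cancel₀ (norm_ne_zero_iff.mpr (hE0 x))]
  · intro x
    have h1 : ‖F0 x‖ = 1 := by rw [hF0', hf]
    have h2 : lam x = 1 := by
      simp only [hlam, h1]
      norm_num
    have h3 : E x = F0 x := by simp [hE, h2]
    show ‖E x‖⁻¹ • E x = f x
    rw [h3, h1, hF0']
    simp

end Pool.Agent.Q126.DL
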