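import Pool.Agent.Helper683.Lk.Set

/-! Homotopy invariance of the linking number. -/

set_option autoImplicit false
set_option maxHeartbeats 4000000

namespace Pool.Agent.Q126.DL

open Pool.Agent.Helper683 Pool.Agent.Helper683.Lk Set Metric Topology Filter

/-- the common base polygon of two close closed curves -/
noncomputable def zig {y y' : R3} (δ : Path y y) (δ' : Path y' y') (N : ℕ) (i : ℕ) : R3 :=
  if i = 2 * N + 2 then y else
    if i % 2 = 0 then inscribed δ N (i / 2) else inscribed δ' N (i / 2)

/-- the polygon inscribed in `δ'` with a spur at the beginning -/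
noncomputable def spur {y y' : R3} (δ' : Path y' y') (N : ℕ) (i : ℕ) : R3 :=
  if i = 0 then y else if i = N + 2 then y else inscribed δ' N (i - 1)

theorem isLk_close {x y y' : R3} {γ : Path x x} {δ : Path y y} {δ' : Path y' y'} {ρ : ℝ}
    (hρ : 0 < ρ) (hfar : ∀ s t : ℝ, 3 * ρ ≤ dist (γ.extend s) (δ.extend t))
    (hclose : ∀ t : ℝ, dist (δ.extend t) (δ'.extend t) < ρ / 4) {n : ℤ}
    (h : IsLinkingNumber γ δ n) : IsLinkingNumber γ δ' n := by
  have hfar' : ∀ s t : ℝ, 2 * ρ ≤ dist (γ.extend s) (δ'.extend t) := by
    intro s t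
    have h1 := hfar s t
    have h2 := hclose t
    have h3 := dist_triangle_right (γ.extend s) (δ.extend t) (δ'.extend t)
    linarith
  have hdj : ∀ s t, γ s ≠ δ' t := by
    intro s t hst
    have := hfar' s t
    rw [Path.extend_apply _ s.2, Path.extend_apply _ t.2] at this
    have e1 : γ ⟨(s : ℝ), s.2⟩ = γ s := rfl
    have e2 : δ' ⟨(t : ℝ), t.2⟩ = δ' t := rfl
    rw [e1, e2, hst, dist_self] at this
    linarith
  obtain ⟨n', hn'⟩ := exists_linkingNumber γ δ' hdj
  suffices e : n' = n by rw [← e]; exact hn'
  obtain ⟨N₀, hN₀⟩ := h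
  obtain ⟨N₁, hN₁⟩ := hn'
  obtain ⟨N, ⟨m1, m2, m3, m0⟩, hN0, hN1⟩ := (((ev_Mod γ (show 0 < ρ / 4 by linarith)).and
    ((ev_Mod δ (show 0 < ρ / 4 by linarith)).and ((ev_Mod δ' (show 0 < ρ / 4 by linarith)).and
      (eventually_gt_atTop 0)))).and ((eventually_ge_atTop N₀).and (eventually_ge_atTop N₁))).exists
  have s1 : ∀ i, dist (inscribed γ N (i + 1)) (inscribed γ N i) < ρ / 4 := m1.step m0 le_rfl
  have s2 : ∀ i, dist (inscribed δ N (i + 1)) (inscribed δ N i) < ρ / 4 := m2.step m0 le_rfl
  have s3 : ∀ i, dist (inscribed δ' N (i + 1)) (inscribed δ' N i) < ρ / 4 := m3.step m0 le_rfl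
  have s4 : ∀ i, dist (inscribed δ N i) (inscribed δ' N i) < ρ / 4 := fun i => hclose _
  have hy : inscribed δ N N = y := insc_last δ m0
  have hy' : inscribed δ' N N = y' := insc_last δ' m0
  have hy0 : inscribed δ N 0 = y := insc_zero δ N
  have hy0' : inscribed δ' N 0 = y' := insc_zero δ' N
  -- values of `zig`
  have z_even : ∀ j ≤ N, zig δ δ' N (2 * j) = inscribed δ N j := by
    intro j hj
    unfold zig
    rw [if_neg (by omega), if_pos (by omega)]
    congr 1; omega
  have z_odd : ∀ j ≤ N, zig δ δ' N (2 * j + 1) = inscribed δ' N j := by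
    intro j hj
    unfold zig
    rw [if_neg (by omega), if_neg (by omega)]
    congr 1; omega
  have z_last : zig δ δ' N (2 * N + 2) = y := by
    unfold zig; rw [if_pos rfl]
  -- distances
  have D1 : ∀ j < N, ∀ i, 2 * j ≤ i → i ≤ 2 * j + 2 →
      dist (zig δ δ' N i) (inscribed δ N j) < ρ / 2 := by
    intro j hj i h1 h2
    have : i = 2 * j ∨ i = 2 * j + 1 ∨ i = 2 * (j + 1) := by omega
    rcases this with rfl | rfl | rfl
    · rw [z_even j hj.le, dist_self]; linarith
    · rw [z_odd j hj.le, dist_comm]; exact (s4 j).trans (by linarith)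
    · rw [z_even (j + 1) hj]; exact (s2 j).trans (by linarith)
  have D2 : ∀ i, 2 * N ≤ i → i ≤ 2 * N + 2 → dist (zig δ δ' N i) y < ρ / 4 := by
    intro i h1 h2
    have : i = 2 * N ∨ i = 2 * N + 1 ∨ i = 2 * N + 2 := by omega
    rcases this with rfl | rfl | rfl
    · rw [z_even N le_rfl, hy, dist_self]; linarith
    · rw [z_odd N le_rfl, hy', dist_comm]
      have := s4 N
      rwa [hy, hy'] at this
    · rw [z_last, dist_self]; linarith
  have hzfar : ∀ i ≤ N, ∀ j ≤ 2 * N + 2, 2 * ρ ≤ dist (inscribed γ N i) (zig δ δ' N j) := by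
    intro i _ j hj
    by_cases hj' : j = 2 * N + 2
    · rw [hj', z_last, ← hy]
      exact le_trans (by linarith) (hfar _ _)
    · rcases Nat.even_or_odd' j with ⟨k, rfl | rfl⟩
      · rw [z_even k (by omega)]
        exact le_trans (by linarith) (hfar _ _)
      · rw [z_odd k (by omega)]
        exact hfar' _ _
  -- the samplings
  have hz0 : zig δ δ' N (2 * N + 2) = zig δ δ' N 0 := by
    have := z_even 0 (Nat.zero_le _)
    rw [Nat.mul_zero] at this
    rw [z_last, this, hy0]
  have ha : inscribed γ N N = inscribed γ N 0 := by rw [insc_zero, insc_last _ m0]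
  have S1 : Samp (inscribed γ N) N (fun i => i) N ρ := by
    refine ⟨fun i j hij => hij, rfl, rfl, ?_⟩
    intro i _ j h1 h2
    have : j = i ∨ j = i + 1 := by omega
    rcases this with rfl | rfl
    · rw [dist_self]; exact hρ
    · exact (s1 _).trans (by linarith)
  have S2 : Samp (zig δ δ' N) (2 * N + 2) (fun i => if i < N then 2 * i else 2 * N + 2) N ρ := by
    refine ⟨?_, ?_, ?_, ?_⟩
    · intro i j hij
      show (if i < N then 2 * i else 2 * N + 2) ≤ (if j < N then 2 * j else 2 * N + 2)
      split_ifs <;> omega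
    · simp [m0]
    · simp
    · intro i hi j h1 h2
      rw [if_pos hi] at h1 ⊢
      rw [z_even i hi.le]
      by_cases h' : i + 1 < N
      · rw [if_pos h'] at h2
        exact (D1 i hi j h1 (by omega)).trans (by linarith)
      · rw [if_neg h'] at h2
        have e : N = i + 1 := by omega
        by_cases h3 : j ≤ 2 * i + 2
        · exact (D1 i hi j h1 h3).trans (by linarith)
        · have h4 := D2 j (by omega) (by omega)
          have h5 := s2 i
          rw [← e, hy] at h5
          have := dist_triangle (zig δ δ' N j) y (inscribed δ N i)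
          linarith
  have S3 : Samp (zig δ δ' N) (2 * N + 2) (fun i => if i = 0 then 0 else if i ≤ N + 1 then 2 * i - 1
      else 2 * N + 2) (N + 2) ρ := by
    refine ⟨?_, ?_, ?_, ?_⟩
    · intro i j hij
      dsimp only
      split_ifs <;> omega
    · simp
    · simp
    · intro i hi j h1 h2
      have e1 : (if i + 1 = 0 then 0 else if i + 1 ≤ N + 1 then 2 * (i + 1) - 1 else 2 * N + 2) =
        if i + 1 ≤ N + 1 then 2 * (i + 1) - 1 else 2 * N + 2 := if_neg (by omega)
      rw [e1] at h2
      by_cases hi0 : i = 0
      · subst hi0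
        simp only [if_true] at h1 ⊢
        rw [if_pos (by omega)] at h2
        have := D1 0 m0 j (by omega) (by omega)
        have e := z_even 0 (Nat.zero_le _)
        rw [Nat.mul_zero] at e
        rw [e]
        linarith
      · rw [if_neg hi0, if_pos (by omega)] at h1 ⊢
        have e2 : 2 * i - 1 = 2 * (i - 1) + 1 := by omega
        rw [e2, z_odd (i - 1) (by omega)]
        rw [e2] at h1
        by_cases hiN : i ≤ N
        · rw [if_pos (by omega)] at h2
          have : j = 2 * (i - 1) + 1 ∨ j = 2 * i ∨ j = 2 * i + 1 := by omega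
          rcases this with rfl | rfl | rfl
          · rw [z_odd (i - 1) (by omega), dist_self]; exact hρ
          · rw [z_even i hiN]
            have t1 := s2 (i - 1)
            have t2 := s4 (i - 1)
            rw [show i - 1 + 1 = i by omega] at t1
            have := dist_triangle (inscribed δ N i) (inscribed δ N (i - 1)) (inscribed δ' N (i - 1))
            linarith
          · rw [z_odd i hiN]
            have t1 := s3 (i - 1)
            rw [show i - 1 + 1 = i by omega] at t1
            linarith
        · have e3 : i = N + 1 := by omega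
          subst e3
          rw [if_neg (by omega)] at h2
          rw [show N + 1 - 1 = N by omega, hy']
          have h4 := D2 j (by omega) h2
          have h5 := s4 N
          rw [hy, hy'] at h5
          have := dist_triangle (zig δ δ' N j) y y'
          linarith
  -- a direction
  have hsp : ∀ i, dist (spur (y := y) δ' N (i + 1)) (spur (y := y) δ' N i) < ρ ∨ N + 2 ≤ i := by
    intro i
    by_cases hi : N + 2 ≤ i
    · right; exact hi
    left
    have h1 : i ≤ N + 1 := by omega
    have := S3.step (i := i) (by omega)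
    have v1 : ∀ k, k ≤ N + 2 → zig δ δ' N (if k = 0 then 0 else if k ≤ N + 1 then 2 * k - 1
        else 2 * N + 2) = spur (y := y) δ' N k := by
      intro k hk
      unfold spur
      by_cases k0 : k = 0
      · rw [if_pos k0, if_pos k0]
        have e := z_even 0 (Nat.zero_le _)
        rw [Nat.mul_zero] at e
        rw [e, hy0]
      · rw [if_neg k0, if_neg k0]
        by_cases k1 : k ≤ N + 1
        · rw [if_pos k1, if_neg (by omega), show 2 * k - 1 = 2 * (k - 1) + 1 by omega,
            z_odd (k - 1) (by omega)]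
        · rw [if_neg k1, if_pos (by omega), z_last]
    rw [v1 _ (by omega), v1 _ (by omega)] at this
    exact this
  have v1 : ∀ k, k ≤ N + 2 → zig δ δ' N (if k = 0 then 0 else if k ≤ N + 1 then 2 * k - 1
      else 2 * N + 2) = spur (y := y) δ' N k := by
    intro k hk
    unfold spur
    by_cases k0 : k = 0
    · rw [if_pos k0, if_pos k0]
      have e := z_even 0 (Nat.zero_le _)
      rw [Nat.mul_zero] at e
      rw [e, hy0]
    · rw [if_neg k0, if_neg k0]
      by_cases k1 : k ≤ N + 1
      · rw [if_pos k1, if_neg (by omega), show 2 * k - 1 = 2 * (k - 1) + 1 by omega,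
          z_odd (k - 1) (by omega)]
      · rw [if_neg k1, if_pos (by omega), z_last]
  obtain ⟨v', hv', hreg'⟩ := exists_dir (Finset.range N ×ˢ Finset.range (N + 2))
    (fun t => inscribed γ N t.1) (fun t => inscribed γ N (t.1 + 1))
    (fun t => spur (y := y) δ' N t.2) (fun t => spur (y := y) δ' N (t.2 + 1)) (by
      rintro ⟨i, j⟩ ht
      rw [Finset.mem_product, Finset.mem_range, Finset.mem_range] at ht
      simp only at ht
      refine seg_disjoint ((s1 i).trans (by linarith)) ?_ ?_ (ρ := ρ)
      · rcases hsp j with h | h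
        · exact h
        · omega
      · simp only
        rw [← v1 j (by omega)]
        exact hzfar i (by omega) _ (by split_ifs <;> omega))
  have hR : ∀ i < N, ∀ j < N + 2, RegPair v' (inscribed γ N i) (inscribed γ N (i + 1))
      (spur (y := y) δ' N j) (spur (y := y) δ' N (j + 1)) := fun i hi j hj =>
    hreg' (i, j) (Finset.mem_product.mpr ⟨Finset.mem_range.mpr hi, Finset.mem_range.mpr hj⟩)
  have sp1 : ∀ j ≤ N, spur (y := y) δ' N (j + 1) = inscribed δ' N j := by
    intro j hj
    unfold spur
    rw [if_neg (by omega), if_neg (by omega), Nat.add_sub_cancel]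
  have hR' : ∀ i < N, ∀ j < N, RegPair v' (inscribed γ N i) (inscribed γ N (i + 1))
      (inscribed δ' N j) (inscribed δ' N (j + 1)) := by
    intro i hi j hj
    rw [← sp1 j hj.le, ← sp1 (j + 1) hj]
    exact hR i hi (j + 1) (by omega)
  have reg1 : Regular v' N (inscribed γ N) (N + 2) (spur (y := y) δ' N) :=
    regular_of hv' m0 (by omega) hR
  have reg2 : Regular v' N (inscribed γ N) N (inscribed δ' N) := regular_of hv' m0 m0 hR'
  obtain ⟨⟨v, hv⟩, hcs⟩ := hN₀ N hN0 N hN0
  have c1 := hcs v hv
  have c2 := (hN₁ N hN1 N hN1).2 v' reg2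
  -- the spur does not matter
  have c3 : crossSum v' N (inscribed γ N) (N + 2) (spur (y := y) δ' N) =
      crossSum v' N (inscribed γ N) N (inscribed δ' N) := by
    unfold crossSum
    apply Finset.sum_congr rfl
    intro i _
    rw [Finset.sum_range_succ, Finset.sum_range_succ']
    have e0 : spur (y := y) δ' N 0 = y := by unfold spur; rw [if_pos rfl]
    have e1 : spur (y := y) δ' N (0 + 1) = y' := by rw [sp1 0 (Nat.zero_le _), hy0']
    have e2 : spur (y := y) δ' N (N + 1) = y' := by rw [sp1 N le_rfl, hy']
    have e3 : spur (y := y) δ' N (N + 1 + 1) = y := by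
      unfold spur; rw [if_neg (by omega), if_pos (by omega)]
    rw [e0, e1, e2, e3, cs_swap34 v' _ _ y y']
    have : ∑ k ∈ Finset.range N, crossSign v' (inscribed γ N i) (inscribed γ N (i + 1))
        (spur (y := y) δ' N (k + 1)) (spur (y := y) δ' N (k + 1 + 1)) =
        ∑ j ∈ Finset.range N, crossSign v' (inscribed γ N i) (inscribed γ N (i + 1))
          (inscribed δ' N j) (inscribed δ' N (j + 1)) := by
      apply Finset.sum_congr rfl
      intro j hj
      rw [Finset.mem_range] at hj
      rw [sp1 j hj.le, sp1 (j + 1) hj]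
    rw [this]
    ring
  have c4 := crossSum_inv (K := N) (L := 2 * N + 2) (a := inscribed γ N) (b := zig δ δ' N) ha hz0
    hzfar (fun i _ => (s1 i).trans (by linarith)) hρ S1 S2 S1 S3 (v := v) (v' := v')
    (Regular_congr (fun i _ => rfl) (fun j hj => by
      by_cases h' : j < N
      · rw [if_pos h', z_even j hj]
      · have e : j = N := by omega
        rw [if_neg h', z_last, e, hy]) hv)
    (Regular_congr (fun i _ => rfl) (fun j hj => (v1 j hj).symm) reg1)
  have c5 : crossSum v N (fun i => inscribed γ N i) N (fun j => zig δ δ' N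
      (if j < N then 2 * j else 2 * N + 2)) = crossSum v N (inscribed γ N) N (inscribed δ N) := by
    apply crossSum_congr (fun i _ => rfl)
    intro j hj
    by_cases h' : j < N
    · rw [if_pos h', z_even j hj]
    · have e : j = N := by omega
      rw [if_neg h', z_last, e, hy]
  have c6 : crossSum v' N (fun i => inscribed γ N i) (N + 2) (fun j => zig δ δ' N
      (if j = 0 then 0 else if j ≤ N + 1 then 2 * j - 1 else 2 * N + 2)) =
      crossSum v' N (inscribed γ N) (N + 2) (spur (y := y) δ' N) :=
    crossSum_congr (fun i _ => rfl) (fun j hj => v1 j hj)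
  rw [← c2, ← c3, ← c6, ← c4, c5, c1]

/-- the linking number with a constant curve is zero -/
theorem isLk_refl {x y : R3} {γ : Path x x} {n : ℤ} (h : IsLinkingNumber γ (Path.refl y) n) :
    n = 0 := by
  obtain ⟨N, hN⟩ := h
  obtain ⟨⟨v, hv⟩, hcs⟩ := hN N le_rfl N le_rfl
  rw [← hcs v hv]
  unfold crossSum
  apply Finset.sum_eq_zero
  intro i _
  apply Finset.sum_eq_zero
  intro j _
  have hc : ∀ j, inscribed (Path.refl y) N j = y := by
    intro j; unfold inscribed; rw [Path.refl_extend]; rfl
  rw [hc, hc]
  exact cs_deg34 _ _ _ _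

end Pool.Agent.Q126.DL
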